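import Pool.Agent.helper9.HQ.Spec

set_option autoImplicit false

open scoped Classical

namespace Pool.Agent.helper9.HQ

open Finset
open Pool.Agent.helper65.HC (V IsEig IsTop lam)

/-- flipping one element -/
noncomputable def DC_fl {d : ℕ} (i : Fin d) (s : Finset (Fin d)) : Finset (Fin d) :=
  if i ∈ s then s.erase i else insert i s

theorem DC_fl_mem {d : ℕ} (i : Fin d) (s : Finset (Fin d)) (h : i ∈ s) : DC_fl i s = s.erase i :=
  if_pos h

theorem DC_fl_not {d : ℕ} (i : Fin d) (s : Finset (Fin d)) (h : i ∉ s) : DC_fl i s = insert i s :=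
  if_neg h

theorem DC_mem_fl_self {d : ℕ} (i : Fin d) (s : Finset (Fin d)) : i ∈ DC_fl i s ↔ i ∉ s := by
  by_cases h : i ∈ s
  · rw [DC_fl_mem i s h]
    simp [h]
  · rw [DC_fl_not i s h]
    simp [h]

theorem DC_mem_fl {d : ℕ} (i j : Fin d) (s : Finset (Fin d)) (hij : j ≠ i) : j ∈ DC_fl i s ↔ j ∈ s := by
  by_cases h : i ∈ s
  · rw [DC_fl_mem i s h, Finset.mem_erase]
    exact ⟨fun h => h.2, fun h => ⟨hij, h⟩⟩
  · rw [DC_fl_not i s h, Finset.mem_insert]
    exact ⟨fun h => h.resolve_left hij, Or.inr⟩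

theorem DC_fl_fl {d : ℕ} (i : Fin d) (s : Finset (Fin d)) : DC_fl i (DC_fl i s) = s := by
  ext j
  by_cases hj : j = i
  · subst hj
    rw [DC_mem_fl_self, DC_mem_fl_self, not_not]
  · rw [DC_mem_fl i j _ hj, DC_mem_fl i j _ hj]

theorem DC_fl_comm {d : ℕ} (i j : Fin d) (s : Finset (Fin d)) (hij : i ≠ j) :
    DC_fl i (DC_fl j s) = DC_fl j (DC_fl i s) := by
  ext k
  by_cases hk : k = i
  · subst hk
    rw [DC_mem_fl_self, DC_mem_fl j k _ hij, DC_mem_fl j k _ hij, DC_mem_fl_self]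
  · by_cases hk2 : k = j
    · subst hk2
      rw [DC_mem_fl i k _ hk, DC_mem_fl_self, DC_mem_fl_self, DC_mem_fl i k _ hk]
    · rw [DC_mem_fl i k _ hk, DC_mem_fl j k _ hk2, DC_mem_fl j k _ hk2, DC_mem_fl i k _ hk]

noncomputable def DC_flE {d : ℕ} (i : Fin d) : Finset (Fin d) ≃ Finset (Fin d) :=
  ⟨DC_fl i, DC_fl i, DC_fl_fl i, DC_fl_fl i⟩

theorem DC_sum_fl {d : ℕ} (i : Fin d) (F : Finset (Fin d) → ℝ) : ∑ s, F (DC_fl i s) = ∑ s, F s :=
  Equiv.sum_comp (DC_flE i) F

/-- the total form -/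
noncomputable def DC_tot {d : ℕ} (g : Finset (Fin d) → ℝ) : ℝ := ∑ i, ∑ s, g s * g (DC_fl i s)

theorem DC_tot_eq {d : ℕ} (A : Fam d) (g : Finset (Fin d) → ℝ) (hg : ∀ s, s ∉ A → g s = 0) :
    DC_tot g = E A g := by
  have h1 : ∀ i : Fin d, ∑ s, g s * g (DC_fl i s) = 2 * ∑ s, if i ∈ s then g s * g (s.erase i) else 0 := by
    intro i
    have h2 : ∑ s, g s * g (DC_fl i s) = (∑ s, if i ∈ s then g s * g (DC_fl i s) else 0) +
        ∑ s, if i ∈ s then 0 else g s * g (DC_fl i s) := by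
      rw [← Finset.sum_add_distrib]
      refine Finset.sum_congr rfl fun s _ => ?_
      split_ifs <;> ring
    have h3 : (∑ s, if i ∈ s then 0 else g s * g (DC_fl i s)) =
        ∑ s, if i ∈ s then g s * g (DC_fl i s) else 0 := by
      rw [← DC_sum_fl i (fun s => if i ∈ s then 0 else g s * g (DC_fl i s))]
      refine Finset.sum_congr rfl fun s _ => ?_
      by_cases h : i ∈ s
      · rw [if_pos h, if_neg (by rw [DC_mem_fl_self, not_not]; exact h), DC_fl_fl, mul_comm]
      · rw [if_neg h, if_pos (by rw [DC_mem_fl_self]; exact h)]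
    rw [h2, h3, ← two_mul]
    refine congrArg _ (Finset.sum_congr rfl fun s _ => ?_)
    by_cases h : i ∈ s
    · rw [if_pos h, if_pos h, DC_fl_mem i s h]
    · rw [if_neg h, if_neg h]
  unfold DC_tot E
  rw [Finset.sum_congr rfl fun i _ => h1 i, ← Finset.mul_sum, Finset.sum_comm]
  refine congrArg _ ?_
  rw [← Finset.sum_subset (Finset.subset_univ A)]
  · refine Finset.sum_congr rfl fun s _ => ?_
    rw [← Finset.sum_filter]
    refine Finset.sum_congr ?_ fun _ _ => rfl
    ext i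
    simp
  · intro s _ hs
    refine Finset.sum_eq_zero fun i _ => ?_
    rw [hg s hs]
    split_ifs <;> ring

/-- compression of a function -/
noncomputable def DC_cp {d : ℕ} (i : Fin d) (g : Finset (Fin d) → ℝ) (s : Finset (Fin d)) : ℝ :=
  if i ∈ s then min (g s) (g (DC_fl i s)) else max (g s) (g (DC_fl i s))

theorem DC_cp_mem {d : ℕ} (i : Fin d) (g : Finset (Fin d) → ℝ) (s : Finset (Fin d)) (h : i ∈ s) :
    DC_cp i g s = min (g s) (g (DC_fl i s)) := if_pos h

theorem DC_cp_not {d : ℕ} (i : Fin d) (g : Finset (Fin d) → ℝ) (s : Finset (Fin d)) (h : i ∉ s) :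
    DC_cp i g s = max (g s) (g (DC_fl i s)) := if_neg h

theorem DC_cp_fl_mem {d : ℕ} (i : Fin d) (g : Finset (Fin d) → ℝ) (s : Finset (Fin d)) (h : i ∈ s) :
    DC_cp i g (DC_fl i s) = max (g s) (g (DC_fl i s)) := by
  rw [DC_cp_not i g _ (by rw [DC_mem_fl_self, not_not]; exact h), DC_fl_fl, max_comm]

theorem DC_cp_fl_not {d : ℕ} (i : Fin d) (g : Finset (Fin d) → ℝ) (s : Finset (Fin d)) (h : i ∉ s) :
    DC_cp i g (DC_fl i s) = min (g s) (g (DC_fl i s)) := by
  rw [DC_cp_mem i g _ (by rw [DC_mem_fl_self]; exact h), DC_fl_fl, min_comm]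

theorem DC_cp_nonneg {d : ℕ} (i : Fin d) (g : Finset (Fin d) → ℝ) (hg : ∀ s, 0 ≤ g s) (s : Finset (Fin d)) :
    0 ≤ DC_cp i g s := by
  unfold DC_cp
  split_ifs
  · exact le_min (hg _) (hg _)
  · exact (hg s).trans (le_max_left _ _)

theorem DC_mm (p q : ℝ) : max p q ^ 2 + min p q ^ 2 = p ^ 2 + q ^ 2 := by
  rcases le_total p q with h | h
  · rw [max_eq_right h, min_eq_left h]; ring
  · rw [max_eq_left h, min_eq_right h]

theorem DC_mm2 (p q : ℝ) : max p q * min p q = p * q := by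
  rcases le_total p q with h | h
  · rw [max_eq_right h, min_eq_left h]; ring
  · rw [max_eq_left h, min_eq_right h]

theorem DC_mm3 (p q r t : ℝ) : p * r + q * t ≤ max p q * max r t + min p q * min r t := by
  rcases le_total p q with h | h <;> rcases le_total r t with h' | h'
  · rw [max_eq_right h, min_eq_left h, max_eq_right h', min_eq_left h']; linarith
  · rw [max_eq_right h, min_eq_left h, max_eq_left h', min_eq_right h']
    nlinarith [mul_nonneg (sub_nonneg.2 h) (sub_nonneg.2 h')]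
  · rw [max_eq_left h, min_eq_right h, max_eq_right h', min_eq_left h']
    nlinarith [mul_nonneg (sub_nonneg.2 h) (sub_nonneg.2 h')]
  · rw [max_eq_left h, min_eq_right h, max_eq_left h', min_eq_right h']

theorem DC_cp_sq {d : ℕ} (i : Fin d) (g : Finset (Fin d) → ℝ) :
    ∑ s, DC_cp i g s ^ 2 = ∑ s, g s ^ 2 := by
  have h1 := DC_sum_fl i (fun s => DC_cp i g s ^ 2)
  have h2 := DC_sum_fl i (fun s => g s ^ 2)
  have h3 : ∑ s, (DC_cp i g s ^ 2 + DC_cp i g (DC_fl i s) ^ 2) = ∑ s, (g s ^ 2 + g (DC_fl i s) ^ 2) := by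
    refine Finset.sum_congr rfl fun s _ => ?_
    by_cases h : i ∈ s
    · rw [DC_cp_mem i g s h, DC_cp_fl_mem i g s h, add_comm, DC_mm]
    · rw [DC_cp_not i g s h, DC_cp_fl_not i g s h, DC_mm]
  rw [Finset.sum_add_distrib, Finset.sum_add_distrib] at h3
  linarith

theorem DC_cp_tot {d : ℕ} (i : Fin d) (g : Finset (Fin d) → ℝ) : DC_tot g ≤ DC_tot (DC_cp i g) := by
  unfold DC_tot
  refine Finset.sum_le_sum fun j _ => ?_
  by_cases hj : j = i
  · subst hj
    refine Finset.sum_le_sum fun s _ => ?_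
    by_cases h : j ∈ s
    · rw [DC_cp_mem j g s h, DC_cp_fl_mem j g s h, mul_comm (min _ _), DC_mm2]
    · rw [DC_cp_not j g s h, DC_cp_fl_not j g s h, DC_mm2]
  · have h1 := DC_sum_fl i (fun s => g s * g (DC_fl j s))
    have h2 := DC_sum_fl i (fun s => DC_cp i g s * DC_cp i g (DC_fl j s))
    have h3 : ∑ s, (g s * g (DC_fl j s) + g (DC_fl i s) * g (DC_fl j (DC_fl i s))) ≤
        ∑ s, (DC_cp i g s * DC_cp i g (DC_fl j s) +
          DC_cp i g (DC_fl i s) * DC_cp i g (DC_fl j (DC_fl i s))) := by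
      refine Finset.sum_le_sum fun s _ => ?_
      rw [← DC_fl_comm i j s (Ne.symm hj)]
      have hm : i ∈ DC_fl j s ↔ i ∈ s := DC_mem_fl j i s (Ne.symm hj)
      by_cases h : i ∈ s
      · rw [DC_cp_mem i g s h, DC_cp_fl_mem i g s h, DC_cp_mem i g _ (hm.2 h),
          DC_cp_fl_mem i g _ (hm.2 h)]
        have := DC_mm3 (g s) (g (DC_fl i s)) (g (DC_fl j s)) (g (DC_fl i (DC_fl j s)))
        linarith
      · have h' : i ∉ DC_fl j s := fun hh => h (hm.1 hh)
        rw [DC_cp_not i g s h, DC_cp_fl_not i g s h, DC_cp_not i g _ h', DC_cp_fl_not i g _ h']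
        exact DC_mm3 (g s) (g (DC_fl i s)) (g (DC_fl j s)) (g (DC_fl i (DC_fl j s)))
    rw [Finset.sum_add_distrib, Finset.sum_add_distrib] at h3
    linarith

theorem DC_cp_supp {d : ℕ} (i : Fin d) (A : Fam d) (g : Finset (Fin d) → ℝ) (hg0 : ∀ s, 0 ≤ g s)
    (hg : ∀ s, s ∉ A → g s = 0) (s : Finset (Fin d)) (hs : s ∉ Down.compression i A) : DC_cp i g s = 0 := by
  rw [Down.mem_compression] at hs
  push Not at hs
  obtain ⟨h1, h2⟩ := hs
  by_cases h : i ∈ s
  · rw [DC_cp_mem i g s h, DC_fl_mem i s h]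
    by_cases hA : s ∈ A
    · rw [hg _ (h1 hA)]
      exact min_eq_right (hg0 s)
    · rw [hg s hA]
      exact min_eq_left (hg0 _)
  · have hA : s ∉ A := by
      intro hA
      have := h1 hA
      rw [Finset.erase_eq_of_notMem h] at this
      exact this hA
    rw [DC_cp_not i g s h, DC_fl_not i s h, hg s hA, hg _ (h2 hA), max_self]

theorem DC_lt {d : ℕ} (i : Fin d) (A : Fam d) (s0 : Finset (Fin d)) (h0 : s0 ∈ A) (h1 : s0.erase i ∉ A) :
    ∑ s ∈ Down.compression i A, s.card < ∑ s ∈ A, s.card := by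
  have hinj : Set.InjOn (fun s : Finset (Fin d) => s.erase i) (A.filter fun s => s.erase i ∉ A) := by
    intro s hs t ht hst
    have hs' := Finset.mem_filter.1 (Finset.mem_coe.1 hs)
    have ht' := Finset.mem_filter.1 (Finset.mem_coe.1 ht)
    have his : i ∈ s := by
      by_contra h
      exact hs'.2 (by rw [Finset.erase_eq_of_notMem h]; exact hs'.1)
    have hit : i ∈ t := by
      by_contra h
      exact ht'.2 (by rw [Finset.erase_eq_of_notMem h]; exact ht'.1)
    have hst' : s.erase i = t.erase i := hst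
    rw [← Finset.insert_erase his, hst', Finset.insert_erase hit]
  have h2 : ∑ s ∈ Down.compression i A, s.card =
      ∑ s ∈ A.filter (fun s => s.erase i ∈ A), s.card +
        ∑ s ∈ A.filter (fun s => s.erase i ∉ A), (s.erase i).card := by
    unfold Down.compression
    rw [Finset.sum_disjUnion, Finset.filter_image, Finset.sum_image hinj]
  rw [h2, ← Finset.sum_filter_add_sum_filter_not A (fun s => s.erase i ∈ A) (fun s => s.card)]
  refine Nat.add_lt_add_left ?_ _
  refine Finset.sum_lt_sum (fun s _ => Finset.card_le_card (Finset.erase_subset _ _)) ?_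
  refine ⟨s0, Finset.mem_filter.2 ⟨h0, h1⟩, ?_⟩
  refine Finset.card_erase_lt_of_mem ?_
  by_contra h
  exact h1 (by rw [Finset.erase_eq_of_notMem h]; exact h0)

theorem DC_Dn {d : ℕ} (A : Fam d) (h : ∀ s ∈ A, ∀ i, s.erase i ∈ A) : Dn A := by
  have key : ∀ (n : ℕ) (x y : Finset (Fin d)), x ∈ A → y ⊆ x → (x \ y).card = n → y ∈ A := by
    intro n
    induction n with
    | zero =>
      intro x y hx hy hc
      rw [Finset.card_eq_zero, Finset.sdiff_eq_empty_iff_subset] at hc
      rw [Finset.Subset.antisymm hy hc]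
      exact hx
    | succ n ih =>
      intro x y hx hy hc
      have hne : (x \ y).Nonempty := by
        rw [← Finset.card_pos, hc]; omega
      obtain ⟨i, hi⟩ := hne
      rw [Finset.mem_sdiff] at hi
      refine ih (x.erase i) y (h x hx i) ?_ ?_
      · intro j hj
        rw [Finset.mem_erase]
        exact ⟨fun hji => hi.2 (hji ▸ hj), hy hj⟩
      · have : x.erase i \ y = (x \ y).erase i := by
          ext j
          simp only [Finset.mem_sdiff, Finset.mem_erase]
          tauto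
        rw [this, Finset.card_erase_of_mem (Finset.mem_sdiff.2 hi), hc]
        rfl
  exact fun x hx y hy => key _ x y hx hy rfl

/-- strings and sets -/
noncomputable def DC_st {d : ℕ} : V d ≃ Finset (Fin d) where
  toFun x := Finset.univ.filter fun i => x i = true
  invFun s := fun i => decide (i ∈ s)
  left_inv := by
    intro x
    funext i
    simp
  right_inv := by
    intro s
    ext i
    simp

theorem DC_st_flip {d : ℕ} (x : V d) (i : Fin d) :
    DC_st (Pool.Agent.helper65.HC.flip i x) = DC_fl i (DC_st x) := by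
  ext j
  by_cases hj : j = i
  · subst hj
    rw [DC_mem_fl_self]
    simp only [DC_st, Equiv.coe_fn_mk, Finset.mem_filter, Finset.mem_univ, true_and]
    unfold Pool.Agent.helper65.HC.flip
    rw [Function.update_self]
    cases x j <;> simp
  · rw [DC_mem_fl i j _ hj]
    simp only [DC_st, Equiv.coe_fn_mk, Finset.mem_filter, Finset.mem_univ, true_and]
    unfold Pool.Agent.helper65.HC.flip
    rw [Function.update_of_ne hj]

theorem DC_start (d : ℕ) (U : Finset (V d)) (t : ℝ) (h : IsEig U t) :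
    ∃ (A : Fam d) (g : Finset (Fin d) → ℝ), A.card = U.card ∧ (∀ s, 0 ≤ g s) ∧ (∀ s, s ∉ A → g s = 0) ∧
      ∑ s, g s ^ 2 = 1 ∧ t ≤ DC_tot g := by
  obtain ⟨f, hf, hpos, hD⟩ := Pool.Agent.helper65.HC.eig_D h
  have hsum : ∑ x, ∑ i, f x * f (Pool.Agent.helper65.HC.flip i x) = t * ∑ x, f x ^ 2 := by
    unfold Pool.Agent.helper65.HC.D at hD
    have h1 : ∑ x, ∑ i, (f x - f (Pool.Agent.helper65.HC.flip i x)) ^ 2 =
        2 * d * ∑ x, f x ^ 2 - 2 * ∑ x, ∑ i, f x * f (Pool.Agent.helper65.HC.flip i x) := by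
      have h2 : ∀ i : Fin d, ∑ x, f (Pool.Agent.helper65.HC.flip i x) ^ 2 = ∑ x, f x ^ 2 := fun i =>
        Pool.Agent.helper65.HC.sum_flip i (fun x => f x ^ 2)
      have h3 : ∑ x, ∑ i : Fin d, f (Pool.Agent.helper65.HC.flip i x) ^ 2 = d * ∑ x, f x ^ 2 := by
        rw [Finset.sum_comm, Finset.sum_congr rfl fun i _ => h2 i, Finset.sum_const, Finset.card_univ,
          Fintype.card_fin, nsmul_eq_mul]
      have h4 : ∑ x, ∑ _i : Fin d, f x ^ 2 = d * ∑ x, f x ^ 2 := by
        rw [Finset.mul_sum]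
        refine Finset.sum_congr rfl fun x _ => ?_
        rw [Finset.sum_const, Finset.card_univ, Fintype.card_fin, nsmul_eq_mul]
      have h5 : ∑ x, ∑ i, (f x - f (Pool.Agent.helper65.HC.flip i x)) ^ 2 =
          ∑ x, ∑ _i : Fin d, f x ^ 2 + ∑ x, ∑ i : Fin d, f (Pool.Agent.helper65.HC.flip i x) ^ 2 -
            2 * ∑ x, ∑ i, f x * f (Pool.Agent.helper65.HC.flip i x) := by
        rw [Finset.mul_sum, ← Finset.sum_add_distrib, ← Finset.sum_sub_distrib]
        refine Finset.sum_congr rfl fun x _ => ?_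
        rw [Finset.mul_sum, ← Finset.sum_add_distrib, ← Finset.sum_sub_distrib]
        refine Finset.sum_congr rfl fun i _ => ?_
        ring
      rw [h5, h3, h4]
      ring
    rw [h1] at hD
    linarith
  set r := √(∑ x, f x ^ 2) with hr
  have hr0 : 0 < r := Real.sqrt_pos.2 hpos
  have hr2 : r ^ 2 = ∑ x, f x ^ 2 := Real.sq_sqrt hpos.le
  refine ⟨U.map DC_st.toEmbedding, fun s => |f (DC_st.symm s)| / r, Finset.card_map _, ?_, ?_, ?_, ?_⟩
  · intro s
    exact div_nonneg (abs_nonneg _) hr0.le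
  · intro s hs
    have : DC_st.symm s ∉ U := by
      intro hU
      exact hs (Finset.mem_map.2 ⟨_, hU, by simp⟩)
    show |f (DC_st.symm s)| / r = 0
    rw [hf _ this, abs_zero, zero_div]
  · rw [← Equiv.sum_comp DC_st]
    have : ∀ x : V d, (|f (DC_st.symm (DC_st x))| / r) ^ 2 = f x ^ 2 / r ^ 2 := by
      intro x
      rw [Equiv.symm_apply_apply, div_pow, sq_abs]
    rw [Finset.sum_congr rfl fun x _ => this x, ← Finset.sum_div, ← hr2, div_self (pow_pos hr0 2).ne']
  · unfold DC_tot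
    have h1 : ∀ i : Fin d, ∑ s, |f (DC_st.symm s)| / r * (|f (DC_st.symm (DC_fl i s))| / r) =
        (∑ x, |f x| * |f (Pool.Agent.helper65.HC.flip i x)|) / r ^ 2 := by
      intro i
      rw [← Equiv.sum_comp DC_st, Finset.sum_div]
      refine Finset.sum_congr rfl fun x _ => ?_
      rw [← DC_st_flip, Equiv.symm_apply_apply, Equiv.symm_apply_apply]
      field_simp
    rw [Finset.sum_congr rfl fun i _ => h1 i, ← Finset.sum_div, le_div_iff₀ (pow_pos hr0 2), hr2, ← hsum,
      Finset.sum_comm]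
    refine Finset.sum_le_sum fun i _ => Finset.sum_le_sum fun x _ => ?_
    rw [← abs_mul]
    exact le_abs_self _

theorem DC : DC_stmt := by
  intro d U t h
  let P : Fam d → Prop := fun A => A.card = U.card ∧ ∃ g : Finset (Fin d) → ℝ, (∀ s, 0 ≤ g s) ∧
    (∀ s, s ∉ A → g s = 0) ∧ ∑ s, g s ^ 2 = 1 ∧ t ≤ DC_tot g
  obtain ⟨A0, g0, hA0⟩ := DC_start d U t h
  have hne : (Finset.univ.filter P).Nonempty :=
    ⟨A0, Finset.mem_filter.2 ⟨Finset.mem_univ _, hA0.1, g0, hA0.2⟩⟩
  obtain ⟨A, hA, hmin⟩ := Finset.exists_min_image (Finset.univ.filter P) (fun A => ∑ s ∈ A, s.card) hne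
  obtain ⟨hAc, g, hg0, hgs, hg1, hgt⟩ := (Finset.mem_filter.1 hA).2
  have hDn : Dn A := by
    refine DC_Dn A fun s hs i => ?_
    by_contra hcon
    have hlt := DC_lt i A s hs hcon
    have hP : P (Down.compression i A) :=
      ⟨by rw [Down.card_compression]; exact hAc, DC_cp i g, DC_cp_nonneg i g hg0,
        DC_cp_supp i A g hg0 hgs, by rw [DC_cp_sq]; exact hg1, hgt.trans (DC_cp_tot i g)⟩
    have := hmin _ (Finset.mem_filter.2 ⟨Finset.mem_univ _, hP⟩)
    omega
  refine ⟨A, hDn, hAc, g, ?_, ?_⟩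
  · unfold N
    rw [← hg1]
    refine Finset.sum_subset (Finset.subset_univ A) fun s _ hs => ?_
    rw [hgs s hs]
    ring
  · rw [← DC_tot_eq A g hgs]
    exact hgt

end Pool.Agent.helper9.HQ
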