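import Pool.Agent.helper9.HQ.Spec

set_option autoImplicit false

open scoped Classical

namespace Pool.Agent.helper9.HQ

open Finset

theorem DL : DL_stmt := by
  intro n W x a i hW hx hi
  refine ⟨fun j k => W (i.succAbove j) (i.succAbove k), fun j => x (i.succAbove j),
    fun j => a (i.succAbove j), ?_, fun j => hx _, ?_, ?_, ?_, ?_⟩
  · refine ⟨fun j k h => hW.symm _ _ h, fun j k j' k' h hj hk => ?_⟩
    exact hW.mono _ _ _ _ h (Fin.succAbove_le_succAbove_iff.2 hj) (Fin.succAbove_le_succAbove_iff.2 hk)
  · rw [Fin.sum_univ_succAbove x i, hi, zero_add]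
  · unfold ar
    rw [Fin.sum_univ_succAbove _ i]
    have h0 : (∑ j, if W i j then x i * x j else 0) = 0 := by
      refine Finset.sum_eq_zero fun j _ => ?_
      split_ifs
      · rw [hi, zero_mul]
      · rfl
    rw [h0, zero_add]
    refine Finset.sum_congr rfl fun j _ => ?_
    rw [Fin.sum_univ_succAbove _ i]
    have h1 : (if W (i.succAbove j) i then x (i.succAbove j) * x i else 0) = 0 := by
      split_ifs
      · rw [hi, mul_zero]
      · rfl
    rw [h1, zero_add]
  · unfold NN
    rw [Fin.sum_univ_succAbove _ i, hi, zero_mul, zero_add]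
  · unfold Phi
    rw [Fin.sum_univ_succAbove (fun k => x k * a k) i, hi, zero_mul, zero_add,
      Fin.sum_univ_succAbove (fun k => ∑ j, if W k j then x k * x j * (a k + a j) ^ 2 else 0) i]
    have h0 : (∑ j, if W i j then x i * x j * (a i + a j) ^ 2 else 0) = 0 := by
      refine Finset.sum_eq_zero fun j _ => ?_
      split_ifs
      · rw [hi, zero_mul, zero_mul]
      · rfl
    rw [h0, zero_add]
    refine congrArg _ (congrArg _ (Finset.sum_congr rfl fun j _ => ?_))
    rw [Fin.sum_univ_succAbove _ i]
    have h1 : (if W (i.succAbove j) i then x (i.succAbove j) * x i * (a (i.succAbove j) + a i) ^ 2 else 0) = 0 := by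
      split_ifs
      · rw [hi, mul_zero, zero_mul]
      · rfl
    rw [h1, zero_add]

end Pool.Agent.helper9.HQ
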