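import Mathlib
import Pool.Agent.helper65.HC.Exact

/-!
# Project hq (MP_d9e35a_co): largest eigenvalues of subgraphs of the hypercube with between `d + 1` and
`1 + d + d (d - 1) / 2` vertices

`V d`, `cube d`, `sub U`, `IsEig`, `IsTop`, `lam` are in `Pool/Agent/helper65/HC/Defs.lean`.
-/

set_option autoImplicit false

open scoped Classical

namespace Pool.Agent.helper9.HQ

open Finset

noncomputable section

/-! ## The limit function -/

/-- value of the quasi-star with parameter `s` -/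
def cS (s : ℝ) : ℝ := 1 + s + √(4 * s - 3 * s ^ 2)

/-- value of the quasi-clique with parameter `t` -/
def cC (t : ℝ) : ℝ := (1 + 2 * t + √(1 - 4 * t + 12 * t ^ 2)) / 2

/-- the limit function -/
def c (a : ℝ) : ℝ := max (cS (1 - √(1 - a))) (cC (√a))

/-! ## Families of subsets of `Fin d` -/

/-- families of sets -/
abbrev Fam (d : ℕ) : Type := Finset (Finset (Fin d))

/-- down-sets -/
def Dn {d : ℕ} (U : Fam d) : Prop := ∀ x ∈ U, ∀ y, y ⊆ x → y ∈ U

/-- the quadratic form of the adjacency matrix (of a down-set): edges `{x, x.erase i}` -/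
def E {d : ℕ} (U : Fam d) (f : Finset (Fin d) → ℝ) : ℝ :=
  2 * ∑ x ∈ U, ∑ i ∈ x, f x * f (x.erase i)

/-- the square of the norm -/
def N {d : ℕ} (U : Fam d) (f : Finset (Fin d) → ℝ) : ℝ := ∑ x ∈ U, f x ^ 2

/-- all eigenvalues are `≤ L` -/
def Le {d : ℕ} (U : Fam d) (L : ℝ) : Prop := ∀ f : Finset (Fin d) → ℝ, E U f ≤ L * N U f

/-- the link of `i` -/
def lk {d : ℕ} (i : Fin d) (U : Fam d) : Fam d := U.filter fun x => i ∉ x ∧ insert i x ∈ U

/-- levels `0, 1, 2` -/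
def lo {d : ℕ} (U : Fam d) : Fam d := U.filter fun x => x.card ≤ 2

/-- levels `≥ 3` -/
def hi {d : ℕ} (U : Fam d) : Fam d := U.filter fun x => 3 ≤ x.card

/-- `l` is the largest eigenvalue of the down-set `U` and `f ≥ 0` a unit eigenvector -/
structure Eig {d : ℕ} (U : Fam d) (l : ℝ) (f : Finset (Fin d) → ℝ) : Prop where
  nn : ∀ x, 0 ≤ f x
  nrm : N U f = 1
  eq : ∀ x ∈ U, l * f x = ∑ i ∈ x, f (x.erase i) +
    ∑ i ∈ univ.filter (fun i => i ∉ x ∧ insert i x ∈ U), f (insert i x)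
  le : Le U l

/-- the form attached to a graph: `G` is a set of pairs (2-element sets) -/
def gf {d : ℕ} (G : Fam d) (y : Fin d → ℝ) : ℝ := (∑ i, y i) ^ 2 + ∑ p ∈ G, (∑ i ∈ p, y i) ^ 2

/-! ## Weighted threshold graphs -/

/-- symmetric shifted 0/1 matrices -/
structure Sh {n : ℕ} (W : Fin n → Fin n → Prop) : Prop where
  symm : ∀ i j, W i j → W j i
  mono : ∀ i j i' j', W i j → i' ≤ i → j' ≤ j → W i' j'

/-- the matrices of type A (`T = n`) and B (`T = n - 1`) -/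
def Wt (n T : ℕ) (i j : Fin n) : Prop := (i : ℕ) + (j : ℕ) < T

/-- the form -/
def Phi {n : ℕ} (W : Fin n → Fin n → Prop) (x a : Fin n → ℝ) : ℝ :=
  (∑ i, x i * a i) ^ 2 + (1 / 2) * ∑ i, ∑ j, if W i j then x i * x j * (a i + a j) ^ 2 else 0

/-- the norm -/
def NN {n : ℕ} (x a : Fin n → ℝ) : ℝ := ∑ i, x i * a i ^ 2

/-- the area -/
def ar {n : ℕ} (W : Fin n → Fin n → Prop) (x : Fin n → ℝ) : ℝ :=
  ∑ i, ∑ j, if W i j then x i * x j else 0

/-- the simplex -/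
def Spl {n : ℕ} (x : Fin n → ℝ) : Prop := (∀ i, 0 ≤ x i) ∧ ∑ i, x i = 1

/-- critical points (`x`, `a` used on `0, ..., n - 1`; type A: `T = n`, type B: `T = n - 1`) -/
structure Cr (n T : ℕ) (x a : ℕ → ℝ) (l nu M : ℝ) : Prop where
  xp : ∀ i < n, 0 < x i
  ap : ∀ i < n, 0 < a i
  sx : ∑ i ∈ range n, x i = 1
  l1 : 1 < l
  e1 : ∀ i < n, l * a i = ∑ j ∈ range n, x j * a j + ∑ j ∈ range (T - i), x j * (a i + a j)
  e2 : ∀ i < n, (l - ∑ j ∈ range (T - i), x j) * a i ^ 2 + ∑ j ∈ range (T - i), x j * a j ^ 2 =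
    nu + M * ∑ j ∈ range (T - i), x j

/-- `l - (x 0 + ... + x (k-1))` -/
def wk (l : ℝ) (x : ℕ → ℝ) (k : ℕ) : ℝ := l - ∑ j ∈ range k, x j

/-- the area of a critical point -/
def arc (n T : ℕ) (x : ℕ → ℝ) : ℝ := ∑ i ∈ range n, x i * ∑ j ∈ range (T - i), x j

/-- `z = (1 + n u) / (1 + u) ^ n` -/
def zz (n : ℕ) (u : ℝ) : ℝ := (1 + n * u) / (1 + u) ^ n

/-- `Y = n (n - 1) u ^ 2 / (1 + u)` -/
def YY (n : ℕ) (u : ℝ) : ℝ := n * (n - 1) * u ^ 2 / (1 + u)

end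

end Pool.Agent.helper9.HQ
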