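import Pool.Agent.helper9.HQ.Spec

set_option autoImplicit false

/-! Row hq:GL (helper98): the graph form. -/

open scoped Classical

namespace Pool.Agent.helper9.HQ

open Finset
open Pool.Agent.helper65.HC (V IsEig IsTop lam)

theorem GLr (hLW : LW_stmt) (hSRT : SRT_stmt) (hCM : CM_stmt) : GL_stmt := by
  intro d G y hd hG
  obtain ⟨W, y', hW, hcard, hy, hgf⟩ := hSRT d G y hG
  have hdr : (1 : ℝ) ≤ (d : ℝ) := by exact_mod_cast hd
  have hd0 : (0 : ℝ) < (d : ℝ) := by linarith
  set x : Fin d → ℝ := fun _ => 1 / (d : ℝ) with hx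
  have hS : Spl x := by
    refine ⟨fun i => by rw [hx]; positivity, ?_⟩
    rw [hx, Finset.sum_const, Finset.card_univ, Fintype.card_fin, nsmul_eq_mul]
    field_simp
  have h1 := hLW d W x y' hW hS
  have e1 : (d : ℝ) ^ 2 * Phi W x y' = (∑ i, y' i) ^ 2 +
      (1 / 2) * ∑ i, ∑ j, if W i j then (y' i + y' j) ^ 2 else 0 := by
    unfold Phi
    have e2 : (∑ i, x i * y' i) = 1 / (d : ℝ) * ∑ i, y' i := by
      rw [Finset.mul_sum]
    have e3 : (∑ i, ∑ j, if W i j then x i * x j * (y' i + y' j) ^ 2 else 0) =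
        1 / (d : ℝ) ^ 2 * ∑ i, ∑ j, if W i j then (y' i + y' j) ^ 2 else 0 := by
      rw [Finset.mul_sum]
      refine Finset.sum_congr rfl fun i _ => ?_
      rw [Finset.mul_sum]
      refine Finset.sum_congr rfl fun j _ => ?_
      split_ifs
      · rw [hx]
        field_simp
      · rw [mul_zero]
    rw [e2, e3]
    field_simp
  have e4 : NN x y' = 1 / (d : ℝ) * ∑ i, y i ^ 2 := by
    unfold NN
    rw [← hy, Finset.mul_sum]
  have e5 : ar W x = ((univ.filter fun p : Fin d × Fin d => W p.1 p.2).card : ℝ) / (d : ℝ) ^ 2 := by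
    unfold ar
    have e6 : (∑ i, ∑ j, if W i j then x i * x j else 0) =
        ∑ p : Fin d × Fin d, if W p.1 p.2 then 1 / (d : ℝ) ^ 2 else 0 := by
      rw [← Finset.univ_product_univ, Finset.sum_product]
      refine Finset.sum_congr rfl fun i _ => Finset.sum_congr rfl fun j _ => ?_
      split_ifs
      · rw [hx]
        field_simp
      · rfl
    rw [e6, ← Finset.sum_filter, Finset.sum_const, nsmul_eq_mul]
    ring
  have e7 : 0 ≤ ar W x := by
    rw [e5]
    positivity
  have e8 : ar W x ≤ min 1 ((2 * (G.card : ℝ) + (d : ℝ)) / (d : ℝ) ^ 2) := by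
    rw [e5]
    refine le_min ?_ ?_
    · rw [div_le_one (by positivity)]
      have h2 : (univ.filter fun p : Fin d × Fin d => W p.1 p.2).card ≤ d ^ 2 := by
        refine (Finset.card_filter_le _ _).trans ?_
        rw [Finset.card_univ, Fintype.card_prod, Fintype.card_fin, sq]
      exact_mod_cast h2
    · refine div_le_div_of_nonneg_right ?_ (by positivity)
      exact_mod_cast hcard
  have e9 := hCM.2.2.1 _ _ e7 e8 (min_le_left _ _)
  have e10 : 0 ≤ ∑ i, y i ^ 2 := Finset.sum_nonneg fun i _ => sq_nonneg _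
  calc gf G y ≤ (d : ℝ) ^ 2 * Phi W x y' := by
        rw [e1]
        exact hgf
    _ ≤ (d : ℝ) ^ 2 * (c (ar W x) * NN x y') := mul_le_mul_of_nonneg_left h1 (by positivity)
    _ = d * c (ar W x) * ∑ i, y i ^ 2 := by
        rw [e4]
        field_simp
    _ ≤ _ := mul_le_mul_of_nonneg_right (mul_le_mul_of_nonneg_left e9 hd0.le) e10

end Pool.Agent.helper9.HQ
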