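import Pool.Agent.helper9.HQ.Spec

set_option autoImplicit false

open scoped Classical

namespace Pool.Agent.helper9.HQ

open Finset

/-- absolute values -/
theorem IND_abs {n : ℕ} (W : Fin n → Fin n → Prop) (x a : Fin n → ℝ) (hx : ∀ i, 0 ≤ x i) :
    Phi W x a ≤ Phi W x (fun i => |a i|) := by
  unfold Phi
  refine add_le_add ?_ ?_
  · refine sq_le_sq.2 ?_
    rw [abs_of_nonneg (Finset.sum_nonneg fun i _ => mul_nonneg (hx i) (abs_nonneg (a i)))]
    refine (Finset.abs_sum_le_sum_abs _ _).trans (le_of_eq ?_)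
    refine Finset.sum_congr rfl fun i _ => ?_
    rw [abs_mul, abs_of_nonneg (hx i)]
  · refine mul_le_mul_of_nonneg_left ?_ (by norm_num)
    refine Finset.sum_le_sum fun i _ => Finset.sum_le_sum fun j _ => ?_
    split_ifs
    · refine mul_le_mul_of_nonneg_left ?_ (mul_nonneg (hx i) (hx j))
      refine sq_le_sq.2 ?_
      rw [abs_of_nonneg (add_nonneg (abs_nonneg (a i)) (abs_nonneg (a j)))]
      exact abs_add_le _ _
    · exact le_refl _

theorem IND_abs_NN {n : ℕ} (x a : Fin n → ℝ) : NN x (fun i => |a i|) = NN x a := by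
  unfold NN
  refine Finset.sum_congr rfl fun i _ => ?_
  rw [sq_abs]

theorem IND_ar_nonneg {n : ℕ} (W : Fin n → Fin n → Prop) (x : Fin n → ℝ) (hx : ∀ i, 0 ≤ x i) :
    0 ≤ ar W x := by
  unfold ar
  refine Finset.sum_nonneg fun i _ => Finset.sum_nonneg fun j _ => ?_
  split_ifs
  · exact mul_nonneg (hx i) (hx j)
  · exact le_refl _

theorem IND_ar_le_one {n : ℕ} (W : Fin n → Fin n → Prop) (x : Fin n → ℝ) (hx : Spl x) :
    ar W x ≤ 1 := by
  have h1 : (1 : ℝ) = ∑ i, ∑ j, x i * x j := by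
    rw [← Finset.sum_mul_sum, hx.2, one_mul]
  rw [h1]
  unfold ar
  refine Finset.sum_le_sum fun i _ => Finset.sum_le_sum fun j _ => ?_
  split_ifs
  · exact le_refl _
  · exact mul_nonneg (hx.1 i) (hx.1 j)

theorem IND_NN_nonneg {n : ℕ} (x a : Fin n → ℝ) (hx : ∀ i, 0 ≤ x i) : 0 ≤ NN x a := by
  unfold NN
  exact Finset.sum_nonneg fun i _ => mul_nonneg (hx i) (sq_nonneg _)

/-- extension by zero -/
noncomputable def IND_ext {n : ℕ} (x : Fin n → ℝ) (i : ℕ) : ℝ := if h : i < n then x ⟨i, h⟩ else 0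

theorem IND_ext_val {n : ℕ} (x : Fin n → ℝ) (i : Fin n) : IND_ext x i = x i := by
  unfold IND_ext
  rw [dif_pos i.2]

theorem IND_sum {n : ℕ} (g : ℕ → ℝ) (T : ℕ) (hT : T ≤ n) (i : ℕ) :
    (∑ j : Fin n, if i + (j : ℕ) < T then g j else 0) = ∑ j ∈ range (T - i), g j := by
  rw [Fin.sum_univ_eq_sum_range (fun j => if i + j < T then g j else 0) n,
    ← Finset.sum_filter]
  refine Finset.sum_congr ?_ fun _ _ => rfl
  ext j
  simp only [Finset.mem_filter, Finset.mem_range]
  omega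

theorem IND_cr {n T : ℕ} (hT : T ≤ n) (x a : Fin n → ℝ) (l nu M : ℝ) (hx : ∀ i, 0 < x i)
    (ha : ∀ i, 0 < a i) (hs : ∑ i, x i = 1) (hl : 1 < l)
    (h1 : ∀ i, l * a i = ∑ j, x j * a j + ∑ j, if Wt n T i j then x j * (a i + a j) else 0)
    (h2 : ∀ i, (l - ∑ j, if Wt n T i j then x j else 0) * a i ^ 2 +
      (∑ j, if Wt n T i j then x j * a j ^ 2 else 0) = nu + M * ∑ j, if Wt n T i j then x j else 0) :
    Cr n T (IND_ext x) (IND_ext a) l nu M := by
  have key : ∀ (g : ℕ → ℝ) (f : Fin n → ℝ), (∀ j : Fin n, f j = g j) → ∀ i : Fin n,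
      (∑ j : Fin n, if Wt n T i j then f j else 0) = ∑ j ∈ range (T - (i : ℕ)), g j := by
    intro g f hfg i
    rw [← IND_sum g T hT (i : ℕ)]
    refine Finset.sum_congr rfl fun j _ => ?_
    rw [hfg j]
    by_cases h : (i : ℕ) + (j : ℕ) < T
    · rw [if_pos h, if_pos (show Wt n T i j from h)]
    · rw [if_neg h, if_neg (show ¬ Wt n T i j from h)]
  have hF : ∑ j, x j * a j = ∑ j ∈ range n, IND_ext x j * IND_ext a j := by
    rw [← Fin.sum_univ_eq_sum_range (fun j => IND_ext x j * IND_ext a j) n]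
    refine Finset.sum_congr rfl fun j _ => ?_
    rw [IND_ext_val, IND_ext_val]
  refine ⟨?_, ?_, ?_, hl, ?_, ?_⟩
  · intro i hi
    have := hx ⟨i, hi⟩
    rwa [← IND_ext_val x ⟨i, hi⟩] at this
  · intro i hi
    have := ha ⟨i, hi⟩
    rwa [← IND_ext_val a ⟨i, hi⟩] at this
  · rw [← hs, ← Fin.sum_univ_eq_sum_range (fun j => IND_ext x j) n]
    exact Finset.sum_congr rfl fun j _ => IND_ext_val x j
  · intro i hi
    have h := h1 ⟨i, hi⟩
    rw [hF, key (fun j => IND_ext x j * (IND_ext a i + IND_ext a j))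
      (fun j => x j * (a ⟨i, hi⟩ + a j)) (fun j => by
        simp only [IND_ext_val]
        rw [show IND_ext a i = a ⟨i, hi⟩ from IND_ext_val a ⟨i, hi⟩]) ⟨i, hi⟩] at h
    rw [show IND_ext a i = a ⟨i, hi⟩ from IND_ext_val a ⟨i, hi⟩] at h ⊢
    exact h
  · intro i hi
    have h := h2 ⟨i, hi⟩
    rw [key (fun j => IND_ext x j) x (fun j => (IND_ext_val x j).symm) ⟨i, hi⟩,
      key (fun j => IND_ext x j * IND_ext a j ^ 2) (fun j => x j * a j ^ 2)
        (fun j => by simp only [IND_ext_val]) ⟨i, hi⟩] at h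
    rw [show IND_ext a i = a ⟨i, hi⟩ from IND_ext_val a ⟨i, hi⟩]
    exact h

theorem IND_arc {n T : ℕ} (hT : T ≤ n) (x : Fin n → ℝ) :
    arc n T (IND_ext x) = ar (Wt n T) x := by
  unfold arc ar
  rw [← Fin.sum_univ_eq_sum_range (fun i => IND_ext x i * ∑ j ∈ range (T - i), IND_ext x j) n]
  refine Finset.sum_congr rfl fun i _ => ?_
  rw [← IND_sum (fun j => IND_ext x j) T hT (i : ℕ), Finset.mul_sum]
  refine Finset.sum_congr rfl fun j _ => ?_
  simp only [IND_ext_val]
  by_cases h : (i : ℕ) + (j : ℕ) < T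
  · rw [if_pos h, if_pos (show Wt n T i j from h)]
  · rw [if_neg h, if_neg (show ¬ Wt n T i j from h), mul_zero]

/-- the induction -/
theorem IND_main (hTW : TW_stmt) (hDL : DL_stmt) (hTYP : TYP_stmt) (hBAS : BAS_stmt) (hMX : MX_stmt)
    (hK1 : K1_stmt) (hK2 : K2_stmt) (hKA1 : KA1_stmt) (hKA2 : KA2_stmt) (hKB1 : KB1_stmt)
    (hKB2 : KB2_stmt) (hFA : FA_stmt) (hFB : FB_stmt) (hCM : CM_stmt) (n : ℕ)
    (IH : ∀ (W : Fin n → Fin n → Prop) (x a : Fin n → ℝ), Sh W → Spl x →
      Phi W x a ≤ c (ar W x) * NN x a)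
    (W : Fin (n + 1) → Fin (n + 1) → Prop) (x₀ a₀ : Fin (n + 1) → ℝ) (hW : Sh W) (hx₀ : Spl x₀)
    (ha₀ : ∀ i, 0 ≤ a₀ i) : Phi W x₀ a₀ ≤ c (ar W x₀) * NN x₀ a₀ := by
  obtain ⟨hcS, hcC, hcm, hc1⟩ := hCM
  by_cases htw : ∃ i : Fin n, ∀ j, W i.castSucc j ↔ W i.succ j
  · obtain ⟨i, hi⟩ := htw
    obtain ⟨W', x', a', hW', hx', ha', hs, har, hNN, hPhi⟩ := hTW n W x₀ a₀ i hW hx₀.1 ha₀ hi
    have h := IH W' x' a' hW' ⟨hx', by rw [hs]; exact hx₀.2⟩
    rw [har, hNN] at h
    exact hPhi.trans h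
  · push Not at htw
    have htw' : ∀ i : Fin n, ¬ ∀ j, W i.castSucc j ↔ W i.succ j := by
      intro i hi
      obtain ⟨j, hj⟩ := htw i
      rcases hj with ⟨h1, h2⟩ | ⟨h1, h2⟩
      · exact h2 ((hi j).1 h1)
      · exact h1 ((hi j).2 h2)
    have hT : ∃ T, T ≤ n + 1 ∧ n ≤ T ∧ W = Wt (n + 1) T := by
      rcases hTYP n W hW htw' with h | h
      · exact ⟨n + 1, le_refl _, Nat.le_succ _, by
          funext i j
          exact propext (h i j)⟩
      · exact ⟨n, Nat.le_succ _, le_refl _, by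
          funext i j
          exact propext (h i j)⟩
    obtain ⟨T, hT1, hT2, hWT⟩ := hT
    have hn0 : n = 0 ∨ n = 1 ∨ 2 ≤ n := by omega
    rcases hn0 with rfl | rfl | hn
    · rw [hWT]
      exact hBAS.1 T x₀ a₀ (by omega) hx₀
    · rw [hWT]
      exact hBAS.2 T x₀ a₀ (by omega) (by omega) hx₀
    · by_contra hcon
      push Not at hcon
      have hal0 : 0 ≤ ar W x₀ := IND_ar_nonneg W x₀ hx₀.1
      have hal1 : ar W x₀ ≤ 1 := IND_ar_le_one W x₀ hx₀
      have hNN0 : 0 ≤ NN x₀ a₀ := IND_NN_nonneg x₀ a₀ hx₀.1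
      have hlt : NN x₀ a₀ < Phi W x₀ a₀ := by
        refine lt_of_le_of_lt ?_ hcon
        have := (hc1 _ hal0 hal1).1
        nlinarith
      obtain ⟨x, a, l, hx, harx, ha, hNN, hPhi, hl, hmax⟩ :=
        hMX (n + 1) W (ar W x₀) hW.symm ⟨x₀, a₀, hx₀, le_refl _, hlt⟩
      have hlc : c (ar W x₀) < l := by
        by_contra hle
        push Not at hle
        have h1 := hmax x₀ a₀ hx₀ (le_refl _)
        have h2 : l * NN x₀ a₀ ≤ c (ar W x₀) * NN x₀ a₀ := mul_le_mul_of_nonneg_right hle hNN0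
        linarith
      have hax0 : 0 ≤ ar W x := IND_ar_nonneg W x hx.1
      have hcle : c (ar W x) ≤ c (ar W x₀) := hcm _ _ hax0 harx hal1
      by_cases hz : ∃ i, x i = 0
      · obtain ⟨i, hi⟩ := hz
        obtain ⟨W', x', a', hW', hx', hs, har, hNN', hPhi'⟩ := hDL n W x a i hW hx.1 hi
        have h := IH W' x' a' hW' ⟨hx', by rw [hs]; exact hx.2⟩
        rw [har, hNN', ← hPhi', hNN, hPhi, mul_one] at h
        linarith
      · push Not at hz
        have hxp : ∀ i, 0 < x i := fun i => lt_of_le_of_ne (hx.1 i) (Ne.symm (hz i))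
        obtain ⟨he1, hap⟩ := hK1 (n + 1) W x a l hW.symm hxp ha hNN hPhi (by linarith)
          (fun a' => hmax x a' hx harx)
        have hde : ∃ i j, (∑ k, if W i k then x k else 0) ≠ ∑ k, if W j k then x k else 0 := by
          refine ⟨0, Fin.last n, ?_⟩
          have h1 : (∑ k, if W (Fin.last n) k then x k else 0) < ∑ k, if W 0 k then x k else 0 := by
            refine Finset.sum_lt_sum ?_ ?_
            · intro k _
              by_cases hk : W (Fin.last n) k
              · rw [if_pos hk, if_pos (hW.mono _ _ _ _ hk (Fin.zero_le _) (le_refl _))]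
              · rw [if_neg hk]
                split_ifs
                · exact (hxp k).le
                · exact le_refl _
            · refine ⟨⟨1, by omega⟩, Finset.mem_univ _, ?_⟩
              have h2 : ¬ W (Fin.last n) ⟨1, by omega⟩ := by
                rw [hWT]
                unfold Wt
                simp only [Fin.val_last]
                omega
              have h3 : W 0 ⟨1, by omega⟩ := by
                rw [hWT]
                unfold Wt
                simp only [Fin.val_zero]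
                omega
              rw [if_neg h2, if_pos h3]
              exact hxp _
          exact ne_of_gt h1
        obtain ⟨nu, M, he2⟩ := hK2 (n + 1) W x a l (ar W x₀) hW.symm hxp hx.2 harx
          (by rw [hNN, hPhi, mul_one]) he1 hmax hde
        rw [hWT] at he1 he2
        have hcr := IND_cr hT1 x a l nu M hxp hap hx.2 hl he1 he2
        have hax1 : ar W x ≤ 1 := harx.trans hal1
        have harcW : arc (n + 1) T (IND_ext x) = ar W x := by rw [hWT]; exact IND_arc hT1 x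
        have hfinal : l ≤ c (ar W x) := by
          rcases Nat.lt_or_ge n T with hT3 | hT3
          · have hTe : T = n + 1 := by omega
            subst hTe
            obtain ⟨q, ta, hq0, hq1, hta, hw, hS, hAP⟩ := hKA1 (n + 1) _ _ l nu M (by omega) hcr
            obtain ⟨u, hu, hlu, hau⟩ := hKA2 (n + 1) _ _ l nu M q ta (by omega) hcr hq0 hq1 hta hw hS hAP
            rw [harcW] at hau
            exact (hFA (n + 1) u l (ar W x) (by omega) hu hlu hau hax1).trans (le_max_left _ _)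
          · have hTe : T = n := by omega
            subst hTe
            obtain ⟨q, ta, hq0, hq1, hta, hw, hS, hAP⟩ := hKB1 (T + 1) _ _ l nu M (by omega) hcr
            obtain ⟨u, hu, hlu, hau⟩ := hKB2 (T + 1) _ _ l nu M q ta (by omega) hcr hq0 hq1 hta hw hS hAP
            have harc' : arc (T + 1) (T + 1 - 1) (IND_ext x) = ar W x := harcW
            rw [harc'] at hau
            exact (hFB (T + 1) u l (ar W x) (by omega) hu hl hlu hau hax1).trans (le_max_right _ _)
        linarith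

theorem IND (hTW : TW_stmt) (hDL : DL_stmt) (hTYP : TYP_stmt) (hBAS : BAS_stmt) (hMX : MX_stmt)
    (hK1 : K1_stmt) (hK2 : K2_stmt) (hKA1 : KA1_stmt) (hKA2 : KA2_stmt) (hKB1 : KB1_stmt)
    (hKB2 : KB2_stmt) (hFA : FA_stmt) (hFB : FB_stmt) (hCM : CM_stmt) : LW_stmt := by
  intro n
  induction n with
  | zero =>
    intro W x a _ hx
    exfalso
    have := hx.2
    rw [Finset.univ_eq_empty, Finset.sum_empty] at this
    exact zero_ne_one this
  | succ n IH =>
    intro W x a hW hx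
    refine (IND_abs W x a hx.1).trans ?_
    rw [← IND_abs_NN x a]
    exact IND_main hTW hDL hTYP hBAS hMX hK1 hK2 hKA1 hKA2 hKB1 hKB2 hFA hFB hCM n IH W x _ hW hx
      (fun i => abs_nonneg _)

end Pool.Agent.helper9.HQ
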