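import Pool.Agent.helper9.HQ.Spec

set_option autoImplicit false

open scoped Classical

namespace Pool.Agent.helper9.HQ

open Finset

theorem KA1_step (l : ℝ) (x : ℕ → ℝ) (k : ℕ) : wk l x k - wk l x (k + 1) = x k := by
  unfold wk
  rw [Finset.sum_range_succ]
  ring

theorem KA1_pos {n T : ℕ} {x a : ℕ → ℝ} {l nu M : ℝ} (h : Cr n T x a l nu M) (k : ℕ) (hk : k ≤ n) :
    0 < wk l x k := by
  have h1 : ∑ j ∈ range k, x j ≤ ∑ j ∈ range n, x j :=
    Finset.sum_le_sum_of_subset_of_nonneg (Finset.range_mono hk)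
      (fun i hi _ => (h.xp i (Finset.mem_range.1 hi)).le)
  have h2 := h.l1
  have h3 := h.sx
  unfold wk
  linarith

/-- the two relations of consecutive classes -/
theorem KA1_rel {n T : ℕ} {x a : ℕ → ℝ} {l nu M : ℝ} (h : Cr n T x a l nu M) (i k : ℕ)
    (hi : i + 1 < n) (hk : k < n) (h1 : T - i = k + 1) (h2 : T - (i + 1) = k) :
    wk l x (k + 1) * (a k + a i) ^ 2 = M * wk l x k ∧
    wk l x k * (a k + a (i + 1)) ^ 2 = M * wk l x (k + 1) := by
  have e1 := h.e1 i (by omega)
  have e1' := h.e1 (i + 1) hi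
  have e2 := h.e2 i (by omega)
  have e2' := h.e2 (i + 1) hi
  rw [h1, Finset.sum_range_succ] at e1
  rw [h2] at e1' e2'
  rw [h1, Finset.sum_range_succ, Finset.sum_range_succ] at e2
  have hw : wk l x k = l - ∑ j ∈ range k, x j := rfl
  have hw1 := KA1_step l x k
  have hp0 := KA1_pos h k hk.le
  have hp1 := KA1_pos h (k + 1) hk
  have hx := h.xp k hk
  have hai := h.ap i (by omega)
  have hai' := h.ap (i + 1) hi
  have hak := h.ap k hk
  have s1 : ∑ j ∈ range k, x j * (a i + a j) = a i * ∑ j ∈ range k, x j + ∑ j ∈ range k, x j * a j := by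
    rw [Finset.mul_sum, ← Finset.sum_add_distrib]
    exact Finset.sum_congr rfl fun j _ => by ring
  have s2 : ∑ j ∈ range k, x j * (a (i + 1) + a j) =
      a (i + 1) * ∑ j ∈ range k, x j + ∑ j ∈ range k, x j * a j := by
    rw [Finset.mul_sum, ← Finset.sum_add_distrib]
    exact Finset.sum_congr rfl fun j _ => by ring
  rw [s1] at e1
  rw [s2] at e1'
  set w := wk l x k with hwd
  set w' := wk l x (k + 1) with hwd'
  set b := ∑ j ∈ range k, x j with hb
  set H := ∑ j ∈ range k, x j * a j with hH
  set H2 := ∑ j ∈ range k, x j * a j ^ 2 with hH2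
  set F := ∑ j ∈ range n, x j * a j with hF
  -- w = l - b, w' = l - b - x k
  have hw' : w' = l - b - x k := by linarith
  have hK : w' * (a i + a k) = w * (a (i + 1) + a k) := by
    rw [hw', hw]; linarith
  have hQ : w' * a i ^ 2 - w * a (i + 1) ^ 2 + (w - w') * a k ^ 2 = M * (w - w') := by
    have : w - w' = x k := by linarith
    rw [this, hw', hw]; linarith
  have hww : w - w' ≠ 0 := by
    have : w - w' = x k := by linarith
    rw [this]; exact hx.ne'
  -- K (p - p') = M (w - w')
  have hpp : w' * (a i + a k) * (a i - a (i + 1)) = M * (w - w') := by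
    have h3 : w' * (a i + a k) * (a i - a (i + 1)) =
        w' * (a i + a k) * (a i - a k) - w * (a (i + 1) + a k) * (a (i + 1) - a k) := by
      rw [← hK]; ring
    rw [h3]; linarith
  -- (p - p') w w' = K (w - w')
  have hpp2 : (a i - a (i + 1)) * w = (a i + a k) * (w - w') := by
    linear_combination hK
  have hM : w' * (a i + a k) ^ 2 = M * w := by
    have h4 : (w' * (a i + a k) ^ 2 - M * w) * (w - w') = 0 := by
      linear_combination w * hpp - w' * (a i + a k) * hpp2
    rcases mul_eq_zero.1 h4 with h5 | h5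
    · linarith
    · exact absurd h5 hww
  refine ⟨by linarith, ?_⟩
  -- w (p' + r)^2 = M w'
  have h6 : w * (w * (a (i + 1) + a k) ^ 2 - M * w') = 0 := by
    have h7 : w * (w * (a (i + 1) + a k) ^ 2) = w' * (w' * (a i + a k) ^ 2) := by
      linear_combination -(w * (a (i + 1) + a k) + w' * (a i + a k)) * hK
    linear_combination h7 + w' * hM
  rcases mul_eq_zero.1 h6 with h8 | h8
  · exact absurd h8 hp0.ne'
  · linarith

theorem KA1_sq {s t : ℝ} (hs : 0 < s) (ht : 0 < t) (h : s ^ 2 = t ^ 2) : s = t := by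
  nlinarith [sq_nonneg (s - t), mul_pos hs ht]

theorem KA1 : KA1_stmt := by
  intro n x a l nu M hn h
  have hS : ∀ k, 2 ≤ k → k ≤ n → wk l x k * (a (k - 1) + a (n - k)) ^ 2 = M * wk l x (k - 1) := by
    intro k hk hkn
    have := (KA1_rel h (n - k) (k - 1) (by omega) (by omega) (by omega) (by omega)).1
    rwa [show k - 1 + 1 = k by omega] at this
  have hT : ∀ k, 2 ≤ k → k ≤ n → wk l x (k - 1) * (a (k - 1) + a (n + 1 - k)) ^ 2 = M * wk l x k := by
    intro k hk hkn
    have := (KA1_rel h (n - k) (k - 1) (by omega) (by omega) (by omega) (by omega)).2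
    rwa [show k - 1 + 1 = k by omega, show n - k + 1 = n + 1 - k by omega] at this
  have hw : ∀ k, k ≤ n → 0 < wk l x k := fun k hk => KA1_pos h k hk
  have hM : 0 < M := by
    have h1 := hS 2 (le_refl _) (by omega)
    have h2 : 0 < wk l x 2 * (a (2 - 1) + a (n - 2)) ^ 2 := by
      have := h.ap (2 - 1) (by omega)
      have := h.ap (n - 2) (by omega)
      have := hw 2 (by omega)
      positivity
    rw [h1] at h2
    exact (pos_iff_pos_of_mul_pos h2).2 (hw (2 - 1) (by omega))
  -- the ratios
  have hr : ∀ k, 3 ≤ k → k ≤ n → wk l x k * wk l x (k - 2) = wk l x (k - 1) ^ 2 := by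
    intro k hk hkn
    have t1 := hT k (by omega) hkn
    have t2 := hT (n + 2 - k) (by omega) (by omega)
    have s1 := hS (n + 2 - k) (by omega) (by omega)
    have s2 := hS (k - 1) (by omega) (by omega)
    rw [show n + 2 - k - 1 = n + 1 - k by omega, show n + 1 - (n + 2 - k) = k - 1 by omega] at t2
    rw [show n + 2 - k - 1 = n + 1 - k by omega, show n - (n + 2 - k) = k - 2 by omega] at s1
    rw [show k - 1 - 1 = k - 2 by omega, show n - (k - 1) = n + 1 - k by omega] at s2
    have p1 := hw k hkn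
    have p2 := hw (k - 1) (by omega)
    have p3 := hw (k - 2) (by omega)
    have p4 := hw (n + 2 - k) (by omega)
    have p5 := hw (n + 1 - k) (by omega)
    have A1 : 0 < a (k - 1) + a (n + 1 - k) := add_pos (h.ap _ (by omega)) (h.ap _ (by omega))
    have A2 : 0 < a (k - 2) + a (n + 1 - k) := add_pos (h.ap _ (by omega)) (h.ap _ (by omega))
    set P := a (k - 1) + a (n + 1 - k) with hP
    set Q := a (k - 2) + a (n + 1 - k) with hQ
    rw [show a (n + 1 - k) + a (k - 1) = P by rw [hP]; ring] at t2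
    rw [show a (n + 1 - k) + a (k - 2) = Q by rw [hQ]; ring] at s1
    -- P^2 = M w_k / w_{k-1} = M w_{n+2-k} / w_{n+1-k};  Q^2 = M w_{n+1-k}/w_{n+2-k} = M w_{k-2}/w_{k-1}
    have u1 : wk l x k * wk l x (n + 1 - k) = wk l x (n + 2 - k) * wk l x (k - 1) := by
      have : M * (wk l x k * wk l x (n + 1 - k)) = M * (wk l x (n + 2 - k) * wk l x (k - 1)) := by
        linear_combination (-wk l x (n + 1 - k)) * t1 + wk l x (k - 1) * t2
      exact mul_left_cancel₀ hM.ne' this
    have u2 : wk l x (n + 1 - k) * wk l x (k - 1) = wk l x (k - 2) * wk l x (n + 2 - k) := by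
      have : M * (wk l x (n + 1 - k) * wk l x (k - 1)) = M * (wk l x (k - 2) * wk l x (n + 2 - k)) := by
        linear_combination (-wk l x (k - 1)) * s1 + wk l x (n + 2 - k) * s2
      exact mul_left_cancel₀ hM.ne' this
    have u3 : wk l x (n + 1 - k) * wk l x (n + 2 - k) *
        (wk l x k * wk l x (k - 2) - wk l x (k - 1) ^ 2) = 0 := by
      linear_combination wk l x (k - 2) * wk l x (n + 2 - k) * u1
        - wk l x (n + 2 - k) * wk l x (k - 1) * u2
    rcases mul_eq_zero.1 u3 with h5 | h5
    · exact absurd h5 (mul_pos p5 p4).ne'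
    · linarith
  set q := wk l x 2 / wk l x 1 with hq
  have hq0 : 0 < q := div_pos (hw 2 (by omega)) (hw 1 (by omega))
  have hq1 : q < 1 := by
    rw [hq, div_lt_one (hw 1 (by omega))]
    have := KA1_step l x 1
    have := h.xp 1 (by omega)
    linarith
  have hqk : ∀ m, m + 2 ≤ n → wk l x (m + 2) = q * wk l x (m + 1) := by
    intro m
    induction m with
    | zero =>
      intro _
      rw [hq]
      field_simp [(hw 1 (by omega)).ne']
    | succ m ih =>
      intro hm
      have h1 := ih (by omega)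
      have h2 := hr (m + 1 + 2) (by omega) hm
      rw [show m + 1 + 2 - 2 = m + 1 by omega, show m + 1 + 2 - 1 = m + 2 by omega] at h2
      have p1 := hw (m + 1) (by omega)
      have h3 : wk l x (m + 1) * (wk l x (m + 1 + 2) - q * wk l x (m + 2)) = 0 := by
        linear_combination h2 + wk l x (m + 2) * h1
      rcases mul_eq_zero.1 h3 with h5 | h5
      · exact absurd h5 p1.ne'
      · rw [show m + 1 + 1 = m + 2 by omega]
        linarith
  have hqk' : ∀ k, 2 ≤ k → k ≤ n → wk l x k = q * wk l x (k - 1) := by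
    intro k hk hkn
    have := hqk (k - 2) (by omega)
    rwa [show k - 2 + 2 = k by omega, show k - 2 + 1 = k - 1 by omega] at this
  set ta := a (n - 1) + a 0 with hta
  have hta0 : 0 < ta := add_pos (h.ap _ (by omega)) (h.ap _ (by omega))
  have hSq : ∀ k, 2 ≤ k → k ≤ n → q * (a (k - 1) + a (n - k)) ^ 2 = M := by
    intro k hk hkn
    have h1 := hS k hk hkn
    rw [hqk' k hk hkn] at h1
    have p1 := hw (k - 1) (by omega)
    have h3 : wk l x (k - 1) * (q * (a (k - 1) + a (n - k)) ^ 2 - M) = 0 := by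
      linear_combination h1
    rcases mul_eq_zero.1 h3 with h5 | h5
    · exact absurd h5 p1.ne'
    · linarith
  have hTq : ∀ k, 2 ≤ k → k ≤ n → (a (k - 1) + a (n + 1 - k)) ^ 2 = M * q := by
    intro k hk hkn
    have h1 := hT k hk hkn
    rw [hqk' k hk hkn] at h1
    have p1 := hw (k - 1) (by omega)
    have h3 : wk l x (k - 1) * ((a (k - 1) + a (n + 1 - k)) ^ 2 - M * q) = 0 := by
      linear_combination h1
    rcases mul_eq_zero.1 h3 with h5 | h5
    · exact absurd h5 p1.ne'
    · linarith
  have htaM : q * ta ^ 2 = M := by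
    have := hSq n (by omega) (le_refl _)
    rwa [Nat.sub_self] at this
  have hSta : ∀ k, 1 ≤ k → k ≤ n → a (k - 1) + a (n - k) = ta := by
    intro k hk hkn
    rcases Nat.lt_or_ge k 2 with hk2 | hk2
    · have : k = 1 := by omega
      subst this
      rw [hta, Nat.sub_self]
      ring
    · have h1 := hSq k hk2 hkn
      refine KA1_sq (add_pos (h.ap _ (by omega)) (h.ap _ (by omega))) hta0 ?_
      have : q * (a (k - 1) + a (n - k)) ^ 2 = q * ta ^ 2 := by rw [h1, htaM]
      exact mul_left_cancel₀ hq0.ne' this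
  refine ⟨q, ta, hq0, hq1, hta0, hqk', hSta, ?_⟩
  intro k hk hkn
  have t1 := hTq (k + 1) (by omega) (by omega)
  rw [show k + 1 - 1 = k by omega, show n + 1 - (k + 1) = n - k by omega] at t1
  have h1 : a k + a (n - k) = q * ta := by
    refine KA1_sq (add_pos (h.ap _ (by omega)) (h.ap _ (by omega))) (mul_pos hq0 hta0) ?_
    rw [t1, ← htaM]
    ring
  have h2 := hSta k hk (by omega)
  linarith

end Pool.Agent.helper9.HQ
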