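import Pool.Agent.helper9.HQ.Spec
import Pool.Agent.helper9.HQ.KA1

set_option autoImplicit false

open scoped Classical

namespace Pool.Agent.helper9.HQ

open Finset

theorem KB1 : KB1_stmt := by
  intro n x a l nu M hn h
  have hS : ∀ k, 1 ≤ k → k ≤ n - 1 → wk l x k * (a (k - 1) + a (n - 1 - k)) ^ 2 = M * wk l x (k - 1) := by
    intro k hk hkn
    have := (KA1_rel h (n - 1 - k) (k - 1) (by omega) (by omega) (by omega) (by omega)).1
    rwa [show k - 1 + 1 = k by omega] at this
  have hT : ∀ k, 1 ≤ k → k ≤ n - 1 → wk l x (k - 1) * (a (k - 1) + a (n - k)) ^ 2 = M * wk l x k := by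
    intro k hk hkn
    have := (KA1_rel h (n - 1 - k) (k - 1) (by omega) (by omega) (by omega) (by omega)).2
    rwa [show k - 1 + 1 = k by omega, show n - 1 - k + 1 = n - k by omega] at this
  have hw : ∀ k, k ≤ n → 0 < wk l x k := fun k hk => KA1_pos h k hk
  have hM : 0 < M := by
    have h1 := hS 1 (le_refl _) (by omega)
    have h2 : 0 < wk l x 1 * (a (1 - 1) + a (n - 1 - 1)) ^ 2 := by
      have := h.ap (1 - 1) (by omega)
      have := h.ap (n - 1 - 1) (by omega)
      have := hw 1 (by omega)
      positivity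
    rw [h1] at h2
    exact (pos_iff_pos_of_mul_pos h2).2 (hw (1 - 1) (by omega))
  have hr : ∀ k, 2 ≤ k → k ≤ n - 1 → wk l x k * wk l x (k - 2) = wk l x (k - 1) ^ 2 := by
    intro k hk hkn
    have t1 := hT k (by omega) hkn
    have t2 := hT (n + 1 - k) (by omega) (by omega)
    have s1 := hS (n + 1 - k) (by omega) (by omega)
    have s2 := hS (k - 1) (by omega) (by omega)
    rw [show n + 1 - k - 1 = n - k by omega, show n - (n + 1 - k) = k - 1 by omega] at t2
    rw [show n + 1 - k - 1 = n - k by omega, show n - 1 - (n + 1 - k) = k - 2 by omega] at s1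
    rw [show k - 1 - 1 = k - 2 by omega, show n - 1 - (k - 1) = n - k by omega] at s2
    have p1 := hw k (by omega)
    have p2 := hw (k - 1) (by omega)
    have p3 := hw (k - 2) (by omega)
    have p4 := hw (n + 1 - k) (by omega)
    have p5 := hw (n - k) (by omega)
    set P := a (k - 1) + a (n - k) with hP
    set Q := a (k - 2) + a (n - k) with hQ
    rw [show a (n - k) + a (k - 1) = P by rw [hP]; ring] at t2
    rw [show a (n - k) + a (k - 2) = Q by rw [hQ]; ring] at s1
    have u1 : wk l x k * wk l x (n - k) = wk l x (n + 1 - k) * wk l x (k - 1) := by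
      have : M * (wk l x k * wk l x (n - k)) = M * (wk l x (n + 1 - k) * wk l x (k - 1)) := by
        linear_combination (-wk l x (n - k)) * t1 + wk l x (k - 1) * t2
      exact mul_left_cancel₀ hM.ne' this
    have u2 : wk l x (n - k) * wk l x (k - 1) = wk l x (k - 2) * wk l x (n + 1 - k) := by
      have : M * (wk l x (n - k) * wk l x (k - 1)) = M * (wk l x (k - 2) * wk l x (n + 1 - k)) := by
        linear_combination (-wk l x (k - 1)) * s1 + wk l x (n + 1 - k) * s2
      exact mul_left_cancel₀ hM.ne' this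
    have u3 : wk l x (n - k) * wk l x (n + 1 - k) *
        (wk l x k * wk l x (k - 2) - wk l x (k - 1) ^ 2) = 0 := by
      linear_combination wk l x (k - 2) * wk l x (n + 1 - k) * u1
        - wk l x (n + 1 - k) * wk l x (k - 1) * u2
    rcases mul_eq_zero.1 u3 with h5 | h5
    · exact absurd h5 (mul_pos p5 p4).ne'
    · linarith
  set q := wk l x 1 / wk l x 0 with hq
  have hq0 : 0 < q := div_pos (hw 1 (by omega)) (hw 0 (by omega))
  have hq1 : q < 1 := by
    rw [hq, div_lt_one (hw 0 (by omega))]
    have := KA1_step l x 0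
    have := h.xp 0 (by omega)
    linarith
  have hqk : ∀ m, m + 1 ≤ n - 1 → wk l x (m + 1) = q * wk l x m := by
    intro m
    induction m with
    | zero =>
      intro _
      rw [hq]
      field_simp [(hw 0 (by omega)).ne']
    | succ m ih =>
      intro hm
      have h1 := ih (by omega)
      have h2 := hr (m + 1 + 1) (by omega) hm
      rw [show m + 1 + 1 - 2 = m by omega, show m + 1 + 1 - 1 = m + 1 by omega] at h2
      have p1 := hw m (by omega)
      have h3 : wk l x m * (wk l x (m + 1 + 1) - q * wk l x (m + 1)) = 0 := by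
        linear_combination h2 + wk l x (m + 1) * h1
      rcases mul_eq_zero.1 h3 with h5 | h5
      · exact absurd h5 p1.ne'
      · linarith
  have hqk' : ∀ k, 1 ≤ k → k ≤ n - 1 → wk l x k = q * wk l x (k - 1) := by
    intro k hk hkn
    have := hqk (k - 1) (by omega)
    rwa [show k - 1 + 1 = k by omega] at this
  set ta := a 0 + a (n - 1 - 1) with hta
  have hta0 : 0 < ta := add_pos (h.ap _ (by omega)) (h.ap _ (by omega))
  have hSq : ∀ k, 1 ≤ k → k ≤ n - 1 → q * (a (k - 1) + a (n - 1 - k)) ^ 2 = M := by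
    intro k hk hkn
    have h1 := hS k hk hkn
    rw [hqk' k hk hkn] at h1
    have p1 := hw (k - 1) (by omega)
    have h3 : wk l x (k - 1) * (q * (a (k - 1) + a (n - 1 - k)) ^ 2 - M) = 0 := by
      linear_combination h1
    rcases mul_eq_zero.1 h3 with h5 | h5
    · exact absurd h5 p1.ne'
    · linarith
  have hTq : ∀ k, 1 ≤ k → k ≤ n - 1 → (a (k - 1) + a (n - k)) ^ 2 = M * q := by
    intro k hk hkn
    have h1 := hT k hk hkn
    rw [hqk' k hk hkn] at h1
    have p1 := hw (k - 1) (by omega)
    have h3 : wk l x (k - 1) * ((a (k - 1) + a (n - k)) ^ 2 - M * q) = 0 := by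
      linear_combination h1
    rcases mul_eq_zero.1 h3 with h5 | h5
    · exact absurd h5 p1.ne'
    · linarith
  have htaM : q * ta ^ 2 = M := hSq 1 (le_refl _) (by omega)
  have hSta : ∀ k, 1 ≤ k → k ≤ n - 1 → a (k - 1) + a (n - 1 - k) = ta := by
    intro k hk hkn
    have h1 := hSq k hk hkn
    refine KA1_sq (add_pos (h.ap _ (by omega)) (h.ap _ (by omega))) hta0 ?_
    have : q * (a (k - 1) + a (n - 1 - k)) ^ 2 = q * ta ^ 2 := by rw [h1, htaM]
    exact mul_left_cancel₀ hq0.ne' this
  have hTta : ∀ k, 1 ≤ k → k ≤ n - 1 → a (k - 1) + a (n - k) = q * ta := by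
    intro k hk hkn
    refine KA1_sq (add_pos (h.ap _ (by omega)) (h.ap _ (by omega))) (mul_pos hq0 hta0) ?_
    rw [hTq k hk hkn, ← htaM]
    ring
  refine ⟨q, ta, hq0, hq1, hta0, hqk', hSta, ?_⟩
  intro k hk hkn
  rcases Nat.lt_or_ge k (n - 1) with hk1 | hk1
  · have h1 := hTta (k + 1) (by omega) (by omega)
    rw [show k + 1 - 1 = k by omega, show n - (k + 1) = n - 1 - k by omega] at h1
    have h2 := hSta k hk (by omega)
    linarith
  · have hkk : k = n - 1 := by omega
    have h1 := hTta 1 (le_refl _) (by omega)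
    have h2 := hSta 1 (le_refl _) (by omega)
    rw [hkk]
    rw [Nat.sub_self] at h1 h2
    linarith

end Pool.Agent.helper9.HQ
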