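import Pool.Agent.helper9.HQ.Spec

set_option autoImplicit false

open scoped Classical

namespace Pool.Agent.helper9.HQ

open Finset

theorem SRT_abs {d : ℕ} (G : Fam d) (y : Fin d → ℝ) : gf G y ≤ gf G (fun i => |y i|) := by
  unfold gf
  have key : ∀ s : Finset (Fin d), (∑ i ∈ s, y i) ^ 2 ≤ (∑ i ∈ s, |y i|) ^ 2 := by
    intro s
    refine sq_le_sq.2 ?_
    rw [abs_of_nonneg (Finset.sum_nonneg fun i _ => abs_nonneg (y i))]
    exact Finset.abs_sum_le_sum_abs _ _
  exact add_le_add (key _) (Finset.sum_le_sum fun p _ => key p)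

theorem SRT_offDiag {d : ℕ} (a b : Fin d) (hab : a ≠ b) :
    (({a, b} : Finset (Fin d)).offDiag) = {(a, b), (b, a)} := by
  ext ⟨u, v⟩
  simp only [Finset.mem_offDiag, Finset.mem_insert, Finset.mem_singleton, Prod.mk.injEq]
  constructor
  · rintro ⟨rfl | rfl, rfl | rfl, h⟩
    · exact absurd rfl h
    · exact Or.inl ⟨rfl, rfl⟩
    · exact Or.inr ⟨rfl, rfl⟩
    · exact absurd rfl h
  · rintro (⟨rfl, rfl⟩ | ⟨rfl, rfl⟩)
    · exact ⟨Or.inl rfl, Or.inr rfl, hab⟩
    · exact ⟨Or.inr rfl, Or.inl rfl, hab.symm⟩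

theorem SRT_pair_sum {d : ℕ} (p : Finset (Fin d)) (hp : p.card = 2) (y : Fin d → ℝ) :
    ∑ q ∈ p.offDiag, (y q.1 + y q.2) ^ 2 = 2 * (∑ i ∈ p, y i) ^ 2 := by
  obtain ⟨a, b, hab, rfl⟩ := Finset.card_eq_two.1 hp
  rw [SRT_offDiag a b hab, Finset.sum_pair hab, Finset.sum_pair]
  · ring
  · intro h
    exact hab (congrArg Prod.fst h)

theorem SRT_pair_of_mem {d : ℕ} (p : Finset (Fin d)) (hp : p.card = 2) (q : Fin d × Fin d)
    (hq : q ∈ p.offDiag) : ({q.1, q.2} : Finset (Fin d)) = p := by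
  obtain ⟨a, b, hab, rfl⟩ := Finset.card_eq_two.1 hp
  rw [SRT_offDiag a b hab, Finset.mem_insert, Finset.mem_singleton] at hq
  rcases hq with rfl | rfl
  · rfl
  · exact Finset.pair_comm _ _

/-- the extremal family -/
theorem SRT_ext {d : ℕ} (y : Fin d → ℝ) (hy0 : ∀ i, 0 ≤ y i) (hy : Antitone y) (k : ℕ)
    (hk : k ≤ (Finset.powersetCard 2 (Finset.univ : Finset (Fin d))).card) :
    ∃ G' : Fam d, (∀ p ∈ G', p.card = 2) ∧ G'.card = k ∧
      (∀ G : Fam d, (∀ p ∈ G, p.card = 2) → G.card = k →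
        ∑ p ∈ G, (∑ i ∈ p, y i) ^ 2 ≤ ∑ p ∈ G', (∑ i ∈ p, y i) ^ 2) ∧
      ∀ i j i' j' : Fin d, i ≠ j → ({i, j} : Finset (Fin d)) ∈ G' → i' ≤ i → j' ≤ j → i' ≠ j' →
        ({i', j'} : Finset (Fin d)) ∈ G' := by
  set S := Finset.powersetCard k (Finset.powersetCard 2 (Finset.univ : Finset (Fin d))) with hS
  have hSne : S.Nonempty := Finset.powersetCard_nonempty.2 hk
  have hmem : ∀ G : Fam d, G ∈ S ↔ (∀ p ∈ G, p.card = 2) ∧ G.card = k := by
    intro G
    rw [hS, Finset.mem_powersetCard]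
    constructor
    · rintro ⟨h1, h2⟩
      exact ⟨fun p hp => (Finset.mem_powersetCard.1 (h1 hp)).2, h2⟩
    · rintro ⟨h1, h2⟩
      exact ⟨fun p hp => Finset.mem_powersetCard.2 ⟨Finset.subset_univ _, h1 p hp⟩, h2⟩
  let A : Fam d → ℝ := fun G => ∑ p ∈ G, (∑ i ∈ p, y i) ^ 2
  let B : Fam d → ℤ := fun G => - ∑ p ∈ G, ∑ i ∈ p, ((i : ℕ) : ℤ)
  obtain ⟨G', hG', hmax⟩ := Finset.exists_max_image S (fun G => toLex (A G, B G)) hSne
  obtain ⟨hG1, hG2⟩ := (hmem G').1 hG'
  refine ⟨G', hG1, hG2, ?_, ?_⟩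
  · intro G h1 h2
    have h := hmax G ((hmem G).2 ⟨h1, h2⟩)
    rcases Prod.Lex.toLex_le_toLex.1 h with h3 | h3
    · exact h3.le
    · exact h3.1.le
  · intro i j i' j' hij hmemij hi hj hij'
    by_contra hnot
    set p : Finset (Fin d) := {i, j} with hp
    set p' : Finset (Fin d) := {i', j'} with hp'
    have hpc : p'.card = 2 := Finset.card_pair hij'
    have hne : p' ≠ p := fun h => hnot (h ▸ hmemij)
    set G := insert p' (G'.erase p) with hG
    have hnot' : p' ∉ G'.erase p := fun h => hnot (Finset.mem_of_mem_erase h)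
    have hGS : G ∈ S := by
      rw [hmem]
      refine ⟨?_, ?_⟩
      · intro q hq
        rw [hG, Finset.mem_insert] at hq
        rcases hq with rfl | hq
        · exact hpc
        · exact hG1 q (Finset.mem_of_mem_erase hq)
      · rw [hG, Finset.card_insert_of_notMem hnot', Finset.card_erase_of_mem hmemij, hG2]
        have : 0 < G'.card := Finset.card_pos.2 ⟨p, hmemij⟩
        omega
    have h := hmax G hGS
    have hA1 : A G' = (∑ i ∈ p, y i) ^ 2 + ∑ q ∈ G'.erase p, (∑ i ∈ q, y i) ^ 2 :=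
      (Finset.add_sum_erase G' (fun q => (∑ i ∈ q, y i) ^ 2) hmemij).symm
    have hA2 : A G = (∑ i ∈ p', y i) ^ 2 + ∑ q ∈ G'.erase p, (∑ i ∈ q, y i) ^ 2 :=
      Finset.sum_insert hnot'
    have hB1 : - B G' = (∑ i ∈ p, ((i : ℕ) : ℤ)) + ∑ q ∈ G'.erase p, ∑ i ∈ q, ((i : ℕ) : ℤ) := by
      show - - _ = _
      rw [neg_neg]
      exact (Finset.add_sum_erase G' (fun q => ∑ i ∈ q, ((i : ℕ) : ℤ)) hmemij).symm
    have hB2 : - B G = (∑ i ∈ p', ((i : ℕ) : ℤ)) + ∑ q ∈ G'.erase p, ∑ i ∈ q, ((i : ℕ) : ℤ) := by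
      show - - _ = _
      rw [neg_neg]
      exact Finset.sum_insert hnot'
    have s1 : ∑ i ∈ p, y i = y i + y j := by rw [hp, Finset.sum_pair hij]
    have s2 : ∑ i ∈ p', y i = y i' + y j' := by rw [hp', Finset.sum_pair hij']
    have s3 : (∑ i ∈ p, ((i : ℕ) : ℤ)) = ((i : ℕ) : ℤ) + ((j : ℕ) : ℤ) := by
      rw [hp, Finset.sum_pair hij]
    have s4 : (∑ i ∈ p', ((i : ℕ) : ℤ)) = ((i' : ℕ) : ℤ) + ((j' : ℕ) : ℤ) := by
      rw [hp', Finset.sum_pair hij']
    have hle : A G' ≤ A G := by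
      rw [hA1, hA2, s1, s2]
      have e1 := hy hi
      have e2 := hy hj
      have e3 := hy0 i
      have e4 := hy0 j
      have : (y i + y j) ^ 2 ≤ (y i' + y j') ^ 2 := by
        refine pow_le_pow_left₀ (add_nonneg e3 e4) (add_le_add e1 e2) 2
      linarith
    have hlt : B G' < B G := by
      have hi1 : (i' : ℕ) ≤ (i : ℕ) := hi
      have hj1 : (j' : ℕ) ≤ (j : ℕ) := hj
      have hstrict : (i' : ℕ) + (j' : ℕ) < (i : ℕ) + (j : ℕ) := by
        by_contra hcon
        have hi2 : (i' : ℕ) = (i : ℕ) := by omega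
        have hj2 : (j' : ℕ) = (j : ℕ) := by omega
        exact hne (by rw [hp, hp', Fin.ext hi2, Fin.ext hj2])
      have : (((i' : ℕ) : ℤ) + ((j' : ℕ) : ℤ)) < (((i : ℕ) : ℤ) + ((j : ℕ) : ℤ)) := by
        exact_mod_cast hstrict
      rw [s3] at hB1
      rw [s4] at hB2
      linarith
    rcases Prod.Lex.toLex_le_toLex.1 h with h3 | h3
    · exact absurd hle (not_le.2 h3)
    · exact absurd h3.2 (not_le.2 hlt)

theorem SRT : SRT_stmt := by
  intro d G y hG
  set σ : Equiv.Perm (Fin d) := Tuple.sort (fun i => - |y i|) with hσ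
  have hmono : Monotone ((fun i => - |y i|) ∘ σ) := Tuple.monotone_sort _
  set y' : Fin d → ℝ := fun i => |y (σ i)| with hy'
  have hanti : Antitone y' := by
    intro i j hij
    have := hmono hij
    simp only [Function.comp_apply] at this
    rw [hy']
    linarith
  have hy0 : ∀ i, 0 ≤ y' i := fun i => abs_nonneg _
  -- transport the family
  set G1 : Fam d := G.image (fun p => p.map σ.symm.toEmbedding) with hG1
  have hinj : Function.Injective (fun p : Finset (Fin d) => p.map σ.symm.toEmbedding) :=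
    Finset.map_injective _
  have hG1c : G1.card = G.card := Finset.card_image_of_injective _ hinj
  have hG1m : ∀ p ∈ G1, p.card = 2 := by
    intro p hp
    rw [hG1, Finset.mem_image] at hp
    obtain ⟨q, hq, rfl⟩ := hp
    rw [Finset.card_map]
    exact hG q hq
  have hsum1 : ∀ p : Finset (Fin d), ∑ i ∈ p.map σ.symm.toEmbedding, y' i = ∑ i ∈ p, |y i| := by
    intro p
    rw [Finset.sum_map]
    refine Finset.sum_congr rfl fun i _ => ?_
    show |y (σ (σ.symm i))| = |y i|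
    rw [Equiv.apply_symm_apply]
  have htot : ∑ i, y' i = ∑ i, |y i| := Equiv.sum_comp σ (fun i => |y i|)
  have hk : G.card ≤ (Finset.powersetCard 2 (Finset.univ : Finset (Fin d))).card :=
    Finset.card_le_card fun p hp => Finset.mem_powersetCard.2 ⟨Finset.subset_univ _, hG p hp⟩
  obtain ⟨G', hG'2, hG'c, hG'max, hG'sh⟩ := SRT_ext y' hy0 hanti G.card hk
  -- the matrix
  obtain ⟨W, hW⟩ : ∃ W : Fin d → Fin d → Prop, ∀ i j, W i j ↔ ((i ≠ j ∧ ({i, j} : Finset (Fin d)) ∈ G') ∨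
    (i = j ∧ ∃ h : (i : ℕ) + 1 < d, ({i, ⟨(i : ℕ) + 1, h⟩} : Finset (Fin d)) ∈ G')) :=
    ⟨fun i j => (i ≠ j ∧ ({i, j} : Finset (Fin d)) ∈ G') ∨
    (i = j ∧ ∃ h : (i : ℕ) + 1 < d, ({i, ⟨(i : ℕ) + 1, h⟩} : Finset (Fin d)) ∈ G'), fun _ _ => Iff.rfl⟩
  refine ⟨W, y', ?_, ?_, ?_, ?_⟩
  · refine ⟨?_, ?_⟩
    · intro i j hij
      rw [hW] at hij ⊢
      rcases hij with (⟨h1, h2⟩ | ⟨h1, h2⟩)
      · exact Or.inl ⟨h1.symm, by rw [Finset.pair_comm]; exact h2⟩
      · subst h1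
        exact Or.inr ⟨rfl, h2⟩
    · have hdiag : ∀ i j e : Fin d, i < j → ({i, j} : Finset (Fin d)) ∈ G' → e ≤ i →
          ∃ h : (e : ℕ) + 1 < d, ({e, ⟨(e : ℕ) + 1, h⟩} : Finset (Fin d)) ∈ G' := by
        intro i j e hij hmem he
        have h1 : (i : ℕ) < (j : ℕ) := hij
        have h2 : (e : ℕ) ≤ (i : ℕ) := he
        have h3 : (e : ℕ) + 1 < d := by have := j.2; omega
        refine ⟨h3, hG'sh i j e ⟨(e : ℕ) + 1, h3⟩ (ne_of_lt hij) hmem he ?_ ?_⟩
        · show (e : ℕ) + 1 ≤ (j : ℕ)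
          omega
        · intro h
          have := congrArg Fin.val h
          simp at this
      intro i j i' j' hij hi hj
      rw [hW] at hij ⊢
      rcases hij with (⟨h1, h2⟩ | ⟨h1, h, h2⟩)
      · by_cases he : i' = j'
        · subst he
          refine Or.inr ⟨rfl, ?_⟩
          rcases lt_or_gt_of_ne h1 with hlt | hlt
          · exact hdiag i j i' hlt h2 hi
          · exact hdiag j i i' hlt (by rw [Finset.pair_comm]; exact h2) hj
        · exact Or.inl ⟨he, hG'sh i j i' j' h1 h2 hi hj he⟩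
      · subst h1
        have hlt : i < ⟨(i : ℕ) + 1, h⟩ := by
          show (i : ℕ) < (i : ℕ) + 1
          omega
        by_cases he : i' = j'
        · subst he
          exact Or.inr ⟨rfl, hdiag i _ i' hlt h2 hi⟩
        · exact Or.inl ⟨he, hG'sh i ⟨(i : ℕ) + 1, h⟩ i' j' (ne_of_lt hlt) h2 hi (hj.trans hlt.le) he⟩
  · -- the number of entries
    have hsub : (Finset.univ.filter fun p : Fin d × Fin d => W p.1 p.2) ⊆
        (G'.biUnion fun p => p.offDiag) ∪ Finset.univ.image (fun i : Fin d => (i, i)) := by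
      rintro ⟨u, v⟩ huv
      rw [Finset.mem_filter] at huv
      rw [Finset.mem_union]
      rcases (hW _ _).1 huv.2 with ⟨h1, h2⟩ | ⟨h1, h2⟩
      · left
        rw [Finset.mem_biUnion]
        exact ⟨_, h2, Finset.mem_offDiag.2 ⟨Finset.mem_insert_self _ _,
          Finset.mem_insert_of_mem (Finset.mem_singleton_self _), h1⟩⟩
      · right
        rw [Finset.mem_image]
        exact ⟨u, Finset.mem_univ _, Prod.ext rfl h1⟩
    refine (Finset.card_le_card hsub).trans ((Finset.card_union_le _ _).trans (add_le_add ?_ ?_))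
    · refine Finset.card_biUnion_le.trans ?_
      rw [← hG'c, mul_comm, ← smul_eq_mul, ← Finset.sum_const]
      refine Finset.sum_le_sum fun p hp => ?_
      rw [Finset.offDiag_card, hG'2 p hp]
    · refine Finset.card_image_le.trans ?_
      rw [Finset.card_univ, Fintype.card_fin]
  · rw [hy']
    show ∑ i, |y (σ i)| ^ 2 = _
    rw [Equiv.sum_comp σ (fun i => |y i| ^ 2)]
    exact Finset.sum_congr rfl fun i _ => sq_abs _
  · refine (SRT_abs G y).trans ?_
    have h1 : gf G (fun i => |y i|) = (∑ i, y' i) ^ 2 + ∑ p ∈ G1, (∑ i ∈ p, y' i) ^ 2 := by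
      unfold gf
      rw [htot, hG1, Finset.sum_image (fun a _ b _ h => hinj h)]
      refine congrArg _ (Finset.sum_congr rfl fun p _ => ?_)
      rw [hsum1]
    rw [h1]
    refine add_le_add (le_refl _) ((hG'max G1 hG1m hG1c).trans ?_)
    have hdisj : ∀ p ∈ G', ∀ p₂ ∈ G', p ≠ p₂ → Disjoint p.offDiag p₂.offDiag := by
      intro p hp p₂ hp₂ hne
      rw [Finset.disjoint_left]
      intro q hq hq₂
      exact hne ((SRT_pair_of_mem p (hG'2 p hp) q hq).symm.trans (SRT_pair_of_mem p₂ (hG'2 p₂ hp₂) q hq₂))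
    have h2 : ∑ p ∈ G', (∑ i ∈ p, y' i) ^ 2 =
        (1 / 2) * ∑ q ∈ G'.biUnion (fun p => p.offDiag), (y' q.1 + y' q.2) ^ 2 := by
      rw [Finset.sum_biUnion (fun p hp p₂ hp₂ hne => hdisj p hp p₂ hp₂ hne), Finset.mul_sum]
      refine Finset.sum_congr rfl fun p hp => ?_
      rw [SRT_pair_sum p (hG'2 p hp)]
      ring
    rw [h2]
    refine mul_le_mul_of_nonneg_left ?_ (by norm_num)
    have h3 : (∑ i, ∑ j, if W i j then (y' i + y' j) ^ 2 else 0) =
        ∑ q ∈ Finset.univ.filter (fun q : Fin d × Fin d => W q.1 q.2), (y' q.1 + y' q.2) ^ 2 := by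
      rw [Finset.sum_filter, ← Finset.univ_product_univ, Finset.sum_product]
    rw [h3]
    refine Finset.sum_le_sum_of_subset_of_nonneg ?_ (fun _ _ _ => sq_nonneg _)
    intro q hq
    rw [Finset.mem_biUnion] at hq
    obtain ⟨p, hp, hq⟩ := hq
    rw [Finset.mem_filter]
    refine ⟨Finset.mem_univ _, (hW _ _).2 (Or.inl ⟨(Finset.mem_offDiag.1 hq).2.2, ?_⟩)⟩
    rw [SRT_pair_of_mem p (hG'2 p hp) q hq]
    exact hp

end Pool.Agent.helper9.HQ
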