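import Pool.Agent.helper9.HQ.Spec
import Pool.Agent.helper9.HQ.DC
import Pool.Agent.helper9.HQ.DL
import Pool.Agent.helper9.HQ.IND
import Pool.Agent.helper9.HQ.KA1
import Pool.Agent.helper9.HQ.KB1
import Pool.Agent.helper9.HQ.SRT
import Pool.Agent.helper32.HQ.EV
import Pool.Agent.helper25.HQ.LOC
import Pool.Agent.helper77.HQ.DSC
import Pool.Agent.helper92.HQ.CUT
import Pool.Agent.helper98.HQ.QF
import Pool.Agent.helper3.HQ.TW
import Pool.Agent.helper56.HQ.TYP
import Pool.Agent.helper85.HQ.BAS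
import Pool.Agent.helper11.HQ.MX
import Pool.Agent.helper54.HQ.K1
import Pool.Agent.helper71.HQ.K2
import Pool.Agent.helper22.HQ.KA2
import Pool.Agent.helper46.HQ.KB2
import Pool.Agent.helper74.HQ.STAR
import Pool.Agent.helper98.HQ.FA
import Pool.Agent.helper89.HQ.FB
import Pool.Agent.helper56.HQ.CM
import Pool.Agent.helper98.HQ.CC
import Pool.Agent.helper9.HQ.GLr
import Pool.Agent.helper63.HQ.LF
import Pool.Agent.helper80.HQ.LS
import Pool.Agent.helper46.HQ.LC
import Pool.Agent.helper80.HQ.LBD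
import Pool.Agent.helper56.HQ.FIN
import Pool.Agent.helper80.HQ.UB

/-!
Assembly of the proof of the Cayley-ball theorem between radius 1 and radius 2.
-/

namespace Pool.Agent.helper9.HQ

theorem main : FIN_stmt := by
  have hCM : CM_stmt := CM
  have hCC : CC_stmt := CC
  have hSTAR : STAR_stmt := STAR
  have hFA : FA_stmt := FA hSTAR hCM
  have hFB : FB_stmt := FB hSTAR hCM
  have hLW : LW_stmt := IND TW DL TYP BAS MX K1 K2 KA1 KA2 KB1 KB2 hFA hFB hCM
  have hGL : GL_stmt := GLr hLW SRT hCM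
  have hUB : UB_stmt := UB DC EV LOC (DSC EV) CUT QF hGL hCM hCC
  have hLB : LBD_stmt := LBD LF LS LC hCM hCC
  exact FIN hUB hLB

end Pool.Agent.helper9.HQ
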