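import Pool.Agent.helper9.HQ.Defs

/-!
# Project hq (MP_d9e35a_co), the rows

Rules: file `Pool/Agent/<seat>/HQ/XX.lean`, `import Pool.Agent.helper9.HQ.Spec`, `namespace Pool.Agent.helper9.HQ`,
`theorem XX (h : YY_stmt) ... : XX_stmt` (exact line in the lock note). Other rows only as hypotheses, nobody waits.
Auxiliary lemmas prefixed `XX_`. No double quotes, no `convert`, no `congr!`. Paper: `/team-store/MP_d9e35a_helper9.md`.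
-/

set_option autoImplicit false
set_option linter.unusedVariables false

open scoped Classical

namespace Pool.Agent.helper9.HQ

open Finset
open Pool.Agent.helper65.HC (V IsEig IsTop lam)

noncomputable section

/-! ## Part 1: reduction to the levels `≤ 2` -/

/-- DC (medium). Down-compression.
Proof. Take a real eigenvector `v` of `U` for `t`; `g₀ (x) = |v x|` on `U`, `0` outside, is `≥ 0`, not zero, and
`t ∑ g₀² ≤ ∑_{x, y ∈ U adjacent} g₀ x g₀ y` (`t v(x)² = ∑_y v(x) v(y)`). Transport to families of sets by `x ↦ {i : x i = true}`.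
For a family `A` and `g ≥ 0` supported on `A` put `e(g) = ∑_i ∑_{x ∌ i} 2 g(x) g(x ∪ i)` (sum over ALL subsets `x` of `Fin d`; this is
the form of the graph). Compression in direction `i`: `A' = {x ∌ i : x ∈ A or x ∪ i ∈ A} ∪ {x ∋ i : x ∈ A and x - i ∈ A}`
(`Down.compression i A` of Mathlib, `Down.card_compression`), `g'(x) = max (g x) (g (x ∪ i))`, `g'(x ∪ i) = min (g x) (g (x ∪ i))` for `x ∌ i`. `g'` is
supported on `A'`, `∑ g'² = ∑ g²`, `e(g') ≥ e(g)`: direction `i`: `max * min` is the product; directions `j ≠ i`: rearrangement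
`p r + q s ≤ max(p,q) max(r,s) + min(p,q) min(r,s)`. Repeat: the sum of the cardinalities of the members decreases strictly if `A' ≠ A`, so after
finitely many compressions all directions are stable and `A` is a down-set. For a down-set `e(g) = E A g` (edges `{x, x.erase i}`, `x ∈ A`). Normalise. -/
def DC_stmt : Prop := ∀ (d : ℕ) (U : Finset (V d)) (t : ℝ), IsEig U t →
  ∃ A : Fam d, Dn A ∧ A.card = U.card ∧ ∃ f : Finset (Fin d) → ℝ, N A f = 1 ∧ t ≤ E A f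

/-- EV (medium). Existence of the Perron vector of a down-set.
Proof. `E U f` is a continuous function of the finitely many values `f x`, `x ∈ U` (for a down-set `x.erase i ∈ U`), take a maximum `l` on the
compact sphere `N U f = 1` (functions on the subtype `U`, extended by zero). Replace `f` by `|f|` (E does not decrease). `Le U l` by homogeneity.
`l ≥ 0` (the value at the function which is 1 at one point and 0 elsewhere is 0). The eigen equation: for `x ∈ U` and the indicator `e` of `x` the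
function `r ↦ l N(f + r e) - E(f + r e)` is a polynomial of degree `≤ 2` in `r` with a minimum (zero) at `r = 0`, so its linear coefficient
`2 l f x - 2 (∑_{i ∈ x} f(x - i) + ∑_{i ∉ x, x + i ∈ U} f(x + i))` vanishes. (Or use the spectral theorem for symmetric matrices.) -/
def EV_stmt : Prop := ∀ (d : ℕ) (U : Fam d), Dn U → U.Nonempty →
  ∃ (l : ℝ) (f : Finset (Fin d) → ℝ), 0 ≤ l ∧ Eig U l f

/-- LOC (medium). Localisation.
Proof. For a set `w` let `X_w = {x ∈ U : w ⊆ x}`, `n_w = (∑_{x ∈ X_w} f x ^ 2)^(1/2)`. Claim: `kap l n_w ≤ ∑_{i ∈ w} n_{w - i}` for `w` nonempty.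
Multiply the eigen equation at `x ∈ X_w` by `f x` and sum over `X_w`: `l n_w² = 2 ∑_{x ∈ X_w} ∑_{j ∈ x \ w} f x f(x - j) + ∑_{x ∈ X_w} f x ∑_{i ∈ w} f(x - i)`
(the upper neighbours of `x ∈ X_w` are in `X_w`; the lower neighbours `x - j`, `j ∉ w`, too; each edge inside `X_w` occurs twice). First term: choose
`i ∈ w` and put `h(x) = f(x + i)` if `x ∈ lk i U` and `w ⊆ x + i`, `0` otherwise; the first term is `≤ E (lk i U) h` (equality) `≤ (1 - kap) l N (lk i U) h =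
(1 - kap) l n_w²`. Second term: for each `i ∈ w` by Cauchy-Schwarz `∑_{x ∈ X_w} f x f(x - i) ≤ n_w n_{w-i}` (`x ↦ x - i` is injective
from `X_w` to `X_{w-i}`). So `l n_w² ≤ (1 - kap) l n_w² + n_w ∑ n_{w-i}`.
Then `n_∅ = 1`, `n_w ≤ 1/(kap l)` for `|w| = 1`, `≤ 2/(kap l)²` for `|w| = 2`, `≤ 6/(kap l)³` for `|w| = 3`. Each `x ∈ U` with at least three elements
contains some `w` with three elements, `w ∈ U`: the left side is `≤ ∑_{w ∈ U, |w| = 3} n_w² ≤ |U| * 36/(kap l)^6`. -/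
def LOC_stmt : Prop := ∀ (d : ℕ) (U : Fam d) (l : ℝ) (f : Finset (Fin d) → ℝ) (kap : ℝ), Dn U → Eig U l f →
  0 < kap → 0 < l → (∀ i, Le (lk i U) ((1 - kap) * l)) → N (hi U) f ≤ 36 * U.card / (kap * l) ^ 6

/-- DSC (medium, uses EV). Descent to a link.
Proof. Claim, by strong induction on `U.card`, for all `j`: if `Dn U`, `Eig U l f`, `l > 0`, then there are `V, l', f', J ≥ j` with `Dn V`, `Eig V l' f'`,
`V.card * 2^(J-j) ≤ U.card`, `l' ≥ l * ∏_{i = j}^{J-1} (1 - kap (9/10)^i)`, and all links of `V` satisfy `Le (lk i V) ((1 - kap (9/10)^J) l')`.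
If all links of `U` satisfy `Le (lk i U) ((1 - kap (9/10)^j) l)` take `V = U`, `J = j`. Otherwise some `lk i U =: U'` does not; it is a down-set, not empty (for an
empty family `Le` is true), `2 * U'.card ≤ U.card` (`x ↦ x` and `x ↦ insert i x` have disjoint images in `U`); let `l''` be from EV; `l'' > (1 - kap (9/10)^j) l > 0`,
since otherwise `Le` would hold. Induction with `j + 1`. Finally `j = 0` and `∏ (1 - a_i) ≥ 1 - ∑ a_i ≥ 1 - 10 kap` (`∑ (9/10)^i ≤ 10`). -/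
def DSC_stmt : Prop := ∀ (d : ℕ) (U : Fam d) (l : ℝ) (f : Finset (Fin d) → ℝ) (kap : ℝ), Dn U → Eig U l f →
  0 < l → 0 < kap → kap ≤ 1 / 20 →
  ∃ (A : Fam d) (l' : ℝ) (f' : Finset (Fin d) → ℝ) (J : ℕ), Dn A ∧ Eig A l' f' ∧ (1 - 10 * kap) * l ≤ l' ∧
    A.card * 2 ^ J ≤ U.card ∧ ∀ i, Le (lk i A) ((1 - kap * (9 / 10) ^ J) * l')

/-- CUT (short-medium). Cutting off the levels `≥ 3`.
Proof. `f₁ = f` on `lo U`, `f₂ = f` on `hi U`, zero elsewhere. Multiply the eigen equation by `f x` and sum over `lo U`: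
`l |f₁|² = E (lo U) f + B`, `B = ∑_{x ∈ U, |x| = 3} ∑_{i ∈ x} f x f(x - i) ≥ 0`. For `th > 0` apply `Le U l` to `th f₁ + th⁻¹ f₂`: its `E` is `≥ 2 B` (all
other terms are `≥ 0`; the mixed edges are exactly those between the levels 2 and 3), so `2 B ≤ l (th² |f₁|² + th⁻² |f₂|²)`, hence `B ≤ l |f₁| |f₂|`
(optimise, or treat `f₂ = 0` separately). So `l |f₁|² ≤ L |f₁|² + l |f₁| |f₂|`; `|f₂|² ≤ q`, `|f₁|² ≥ 1 - q ≥ 1/4`, `|f₂|/|f₁| ≤ 2 √q`. -/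
def CUT_stmt : Prop := ∀ (d : ℕ) (U : Fam d) (l : ℝ) (f : Finset (Fin d) → ℝ) (L q : ℝ), Dn U → Eig U l f →
  0 ≤ l → 0 ≤ q → q ≤ 3 / 4 → N (hi U) f ≤ q → Le (lo U) L → l * (1 - 2 * √q) ≤ L

/-- QF (short-medium). Levels `≤ 2`.
Proof. If `U` is empty both sides are 0. Otherwise `∅ ∈ U`. `y i = f {i}` if `{i} ∈ U`, else 0. `E (lo U) f = 2 [f(∅) ∑ y + ∑_{p ∈ U, |p| = 2} f(p) ∑_{i ∈ p} y i]`
(for `p = {i, j} ∈ U` the singletons are in `U` and `f(p.erase i) = y j`, ...) `≤ 2 √A √(gf y) ≤ 2 √A √(L B) ≤ √L (A + B)` with `A = f(∅)² + ∑ f(p)²`,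
`B = ∑ y²`, `A + B = N (lo U) f`. -/
def QF_stmt : Prop := ∀ (d : ℕ) (U : Fam d) (L : ℝ), Dn U → 0 ≤ L →
  (∀ y : Fin d → ℝ, gf (U.filter fun x => x.card = 2) y ≤ L * ∑ i, y i ^ 2) → Le (lo U) (√L)

/-! ## Part 2: weighted threshold graphs -/

/-- SRT (medium). From graphs to shifted matrices.
Proof. `gf G y ≤ gf G |y|`. Let `σ` be a permutation sorting: `y' i = |y (σ i)|` antitone; transport `G` by `σ`. Let `k = G.card`. Order the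
2-element sets `{i < j}` by the key `(-(y' i + y' j), i + j)` lexicographically (ties broken arbitrarily) and let `G'` be the set of the first `k`; then
`∑_{G} (y'_i + y'_j)² ≤ ∑_{G'}` and `G'` is closed under going down componentwise (if `i' ≤ i`, `j' ≤ j`, `{i',j'} ≠ {i,j}` the key of `{i',j'}` is strictly
smaller). [Or: among all `k`-element sets of pairs choose one with `∑ (y'_i + y'_j)²` maximal and, among those, `∑ (i + j)` minimal.]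
`W i j` iff `i ≠ j` and `{i, j} ∈ G'`, or `i = j` and `i + 1 < d` and `{i, i+1} ∈ G'`. This is shifted and symmetric; it has `2 k` off-diagonal entries and at most `d`
diagonal ones. `∑_{p ∈ G'} (∑_{i∈p} y' i)² = (1/2) ∑_{i ≠ j, W i j} (y' i + y' j)² ≤ (1/2) ∑_{W i j} ...`. -/
def SRT_stmt : Prop := ∀ (d : ℕ) (G : Fam d) (y : Fin d → ℝ), (∀ p ∈ G, p.card = 2) →
  ∃ (W : Fin d → Fin d → Prop) (y' : Fin d → ℝ), Sh W ∧
    (univ.filter fun p : Fin d × Fin d => W p.1 p.2).card ≤ 2 * G.card + d ∧ ∑ i, y' i ^ 2 = ∑ i, y i ^ 2 ∧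
    gf G y ≤ (∑ i, y' i) ^ 2 + (1 / 2) * ∑ i, ∑ j, if W i j then (y' i + y' j) ^ 2 else 0

/-- TW (medium). Merging twins.
Proof. `x' j = x (i.succ.succAbove j)` for `j ≠ i`, `x' i = x i.castSucc + x i.succ`; `W' j k = W (i.succ.succAbove j) (i.succ.succAbove k)`; `a' j = a (i.succ.succAbove j)` for `j ≠ i`,
`a' i = √((x_p a_p² + x_q a_q²)/(x_p + x_q))`, `p = i.castSucc`, `q = i.succ` (0 if `x_p + x_q = 0`), so that `x' i * a' i ^ 2 = x_p a_p² + x_q a_q²` and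
`x_p a_p + x_q a_q ≤ x' i * a' i` (Cauchy-Schwarz). For `j ≠ p, q`: `x_p x_j (a_p + a_j)² + x_q x_j (a_q + a_j)² = x_j [x_p a_p² + x_q a_q² + 2 a_j (x_p a_p + x_q a_q) + (x_p + x_q) a_j²]
≤ x_j x'_i (a'_i + a_j)²`. The block `{p, q}`: all four entries of `W` are equal (rows equal and symmetry); if true,
`(1/2) ∑_{r,s ∈ {p,q}} x_r x_s (a_r + a_s)² = (x_p + x_q)(x_p a_p² + x_q a_q²) + (x_p a_p + x_q a_q)² ≤ 2 x'² a'² = (1/2) x'² (2 a')²`. -/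
def TW_stmt : Prop := ∀ (n : ℕ) (W : Fin (n + 1) → Fin (n + 1) → Prop) (x a : Fin (n + 1) → ℝ) (i : Fin n), Sh W →
  (∀ j, 0 ≤ x j) → (∀ j, 0 ≤ a j) → (∀ j, W i.castSucc j ↔ W i.succ j) →
  ∃ (W' : Fin n → Fin n → Prop) (x' a' : Fin n → ℝ), Sh W' ∧ (∀ j, 0 ≤ x' j) ∧ (∀ j, 0 ≤ a' j) ∧
    ∑ j, x' j = ∑ j, x j ∧ ar W' x' = ar W x ∧ NN x' a' = NN x a ∧ Phi W x a ≤ Phi W' x' a'

/-- DL (short). Deleting a class of weight 0. Proof. `W' j k = W (i.succAbove j) (i.succAbove k)`, `x' = x ∘ i.succAbove`, `a' = a ∘ i.succAbove`;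
`Fin.sum_univ_succAbove`. -/
def DL_stmt : Prop := ∀ (n : ℕ) (W : Fin (n + 1) → Fin (n + 1) → Prop) (x a : Fin (n + 1) → ℝ) (i : Fin (n + 1)), Sh W →
  (∀ j, 0 ≤ x j) → x i = 0 →
  ∃ (W' : Fin n → Fin n → Prop) (x' a' : Fin n → ℝ), Sh W' ∧ (∀ j, 0 ≤ x' j) ∧
    ∑ j, x' j = ∑ j, x j ∧ ar W' x' = ar W x ∧ NN x' a' = NN x a ∧ Phi W x a = Phi W' x' a'

/-- TYP (medium). Classification of the shifted matrices without twins.
Proof. Let `D i` = number of `j` with `W i j`; by `mono` `W i j ↔ j < D i`, `D` is antitone, and `j < D i ↔ i < D j` (symmetry). No twins: `D` is strictly antitone,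
with values in `{0, ..., n}`: so `n - 1 - i ≤ D i ≤ n - i` for all `i < n` (from `D (n-1) ≥ 0` upwards, from `D 0 ≤ n` downwards). If `D 0 = n`: then `0 < D j` for all `j`
by symmetry, so `D (n-1) ≥ 1` and `D i ≥ n - i` for all `i`: `D i = n - i`, i.e. `W i j ↔ i + j < n`. If `D 0 ≤ n - 1`: then `D i ≤ n - 1 - i`, equality:
`W i j ↔ i + j < n - 1`. (For `n = 1` both cases are clear.) -/
def TYP_stmt : Prop := ∀ (n : ℕ) (W : Fin (n + 1) → Fin (n + 1) → Prop), Sh W →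
  (∀ i : Fin n, ¬ ∀ j, W i.castSucc j ↔ W i.succ j) →
  (∀ i j, W i j ↔ Wt (n + 1) (n + 1) i j) ∨ (∀ i j, W i j ↔ Wt (n + 1) n i j)

/-- BAS (medium). One or two classes.
Proof. `n = 1`, `T = 1`: `ar = 1`, `Phi = 3 a²`, `c 1 ≥ cC 1 = 3`. `n = 1`, `T = 0`: `Phi = a²`, `c 0 ≥ 1`.
`n = 2`, `x = (s, 1-s)`. `T = 2`: `ar = 2s - s²`, `√(1 - ar) = 1 - s`, `c ≥ cS s`; `Phi = (s a + (1-s) b)² + 2 s² a² + s (1-s)(a+b)²`
`= s (1 + 2s) a² + (1-s) b² + 4 s (1-s) a b`, to be `≤ la (s a² + (1-s) b²)` with `la = cS s`: discriminant `(la - 1 - 2s)(la - 1) = 4 s (1-s)`, both factors `≥ 0`.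
`T = 1`: `ar = s²`, `√ar = s`, `Phi = (s a + (1-s) b)² + 2 s² a²`, `la = cC s`: `(la - 3s)(la - (1-s)) = s (1-s)`, both factors `≥ 0`
(`la² - (1+2s) la + 2s(1-s) = 0`). -/
def BAS_stmt : Prop :=
  (∀ (T : ℕ) (x a : Fin 1 → ℝ), T ≤ 1 → Spl x → Phi (Wt 1 T) x a ≤ c (ar (Wt 1 T) x) * NN x a) ∧
  (∀ (T : ℕ) (x a : Fin 2 → ℝ), 1 ≤ T → T ≤ 2 → Spl x → Phi (Wt 2 T) x a ≤ c (ar (Wt 2 T) x) * NN x a)

/-- MX (medium). The maximum.
Proof. On the compact set `K` of the pairs `(ξ, b)` with `ξ i ≥ 0`, `∑ ξ² = 1`, `∑ b² = 1`, `∑_{W i j} ξ_i² ξ_j² ≤ al` the continuous function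
`Ps(ξ, b) = (∑ ξ_i b_i)² + (1/2) ∑_{W i j} (ξ_j b_i + ξ_i b_j)²` has a maximum `l`. `(x, a)` with `x = ξ²`, `b = ξ a` gives `Ps = Phi W x a`, `∑ b² = NN x a`; so
`Phi W x' a' ≤ l NN x' a'` for all feasible `x', a'` (homogeneity in `a'`; if `NN x' a' = 0` then `x'_i a'_i = 0` for all `i` and `Phi` is
`(1/2) ∑_{W i j} x'_i x'_j (a'_i + a'_j)² = 0`), and `l > 1` by the hypothesis. At the maximum `(ξ, b)`, replace `b` by `|b|`. If `ξ_i = 0` then `b_i = 0`: fix such an `i`,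
`Ps(ξ, b) = Ps(ξ, b with b_i = 0) + de_i b_i²`, `de_i = ∑_{W i j} ξ_j² ≤ 1`, (note `ξ_i = 0`), and `Ps(ξ, b') ≤ l ∑ b'²` for all `b'` (homogeneity), so
`l ≤ l (1 - b_i²) + b_i²`, i.e. `(l - 1) b_i² ≤ 0`. Put `x = ξ²`, `a_i = b_i/ξ_i` (0 if `ξ_i = 0`). -/
def MX_stmt : Prop := ∀ (n : ℕ) (W : Fin n → Fin n → Prop) (al : ℝ), (∀ i j, W i j → W j i) →
  (∃ x a : Fin n → ℝ, Spl x ∧ ar W x ≤ al ∧ NN x a < Phi W x a) →
  ∃ (x a : Fin n → ℝ) (l : ℝ), Spl x ∧ ar W x ≤ al ∧ (∀ i, 0 ≤ a i) ∧ NN x a = 1 ∧ Phi W x a = l ∧ 1 < l ∧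
    ∀ x' a' : Fin n → ℝ, Spl x' → ar W x' ≤ al → Phi W x' a' ≤ l * NN x' a'

/-- K1 (short-medium). First order condition in `a`.
Proof. For fixed `x` the quadratic polynomial `r ↦ l NN x (a + r e_i) - Phi W x (a + r e_i)` is `≥ 0` with value 0 at `r = 0`; its linear coefficient
`2 l x_i a_i - 2 x_i (∑ x a) - 2 ∑_j [W i j] x_i x_j (a_i + a_j)` vanishes (symmetry of `W`); divide by `2 x_i`. Then `a_i > 0`:
`∑ x a > 0` since `a ≥ 0`, `NN x a = 1`; the right side is `> 0`. -/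
def K1_stmt : Prop := ∀ (n : ℕ) (W : Fin n → Fin n → Prop) (x a : Fin n → ℝ) (l : ℝ), (∀ i j, W i j → W j i) →
  (∀ i, 0 < x i) → (∀ i, 0 ≤ a i) → NN x a = 1 → Phi W x a = l → 0 < l →
  (∀ a' : Fin n → ℝ, Phi W x a' ≤ l * NN x a') →
  (∀ i, l * a i = ∑ j, x j * a j + ∑ j, if W i j then x j * (a i + a j) else 0) ∧ ∀ i, 0 < a i

/-- K2 (medium-long). First order condition in `x`.
Proof. `de i = ∑_j [W i j] x_j`, `ps i = (l - de i) a_i² + ∑_j [W i j] x_j a_j²`. By the hypothesis `hK` (the conclusion of K1) the partial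
derivative of `Phi W x a - l NN x a` with respect to `x_i` is `2 F a_i + ∑_j [W i j] x_j (a_i + a_j)² - l a_i² = ps i`, `F = ∑ x a`
(insert `F = l a_i - ∑_j [W i j] x_j (a_i + a_j)`). Claim: if `∑ u_i = 0` and `∑ de_i u_i = 0` then `∑ u_i ps_i = 0`. Since `de` is not constant there is `v` with `∑ v = 0`,
`∑ de_i v_i = -1`, multiply by a constant `C` with `2 C > |∑_{W i j} u_i u_j| + 1`. The point `x(r) = x + r u + r² C v` is in the simplex for small `|r|` (all `x_i > 0`),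
and `ar W x(r) = ar W x + 2 r ∑ de u + r² (∑_{W i j} u_i u_j - 2 C) + O(r³) ≤ al` for small `|r|`. So the polynomial `Phi W x(r) a - l NN x(r) a` of `r` is `≤ 0` for
small `|r|`, with value 0 at `r = 0`; its linear coefficient `∑ u_i ps_i` vanishes. Conclusion: `ps` is a combination of 1 and `de`:
choose `p ≠ q` with `de_p ≠ de_q`, `M = (ps_p - ps_q)/(de_p - de_q)`, `nu = ps_p - M de_p`; for any `i` use `u` = `e_i - α e_p - β e_q` with `α + β = 1`,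
`α de_p + β de_q = de_i`. -/
def K2_stmt : Prop := ∀ (n : ℕ) (W : Fin n → Fin n → Prop) (x a : Fin n → ℝ) (l al : ℝ), (∀ i j, W i j → W j i) →
  (∀ i, 0 < x i) → ∑ i, x i = 1 → ar W x ≤ al → Phi W x a = l * NN x a →
  (∀ i, l * a i = ∑ j, x j * a j + ∑ j, if W i j then x j * (a i + a j) else 0) →
  (∀ x' a' : Fin n → ℝ, Spl x' → ar W x' ≤ al → Phi W x' a' ≤ l * NN x' a') →
  (∃ i j, (∑ k, if W i k then x k else 0) ≠ ∑ k, if W j k then x k else 0) →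
  ∃ nu M : ℝ, ∀ i, (l - ∑ j, if W i j then x j else 0) * a i ^ 2 + (∑ j, if W i j then x j * a j ^ 2 else 0) =
    nu + M * ∑ j, if W i j then x j else 0

/-- KA1 (medium). The structure of the critical points of type A.
Proof (`w k = wk l x k`, `w (k-1) - w k = x (k-1) > 0`, all `w k > 0` since `l > 1`). For `2 ≤ k ≤ n` subtract `e1`, `e2` at `i = n - k` and `i = n + 1 - k` (so that
`range (n - i)` is `range k`, resp. `range (k-1)`); with `p = a (n-k)`, `p' = a (n+1-k)`, `r = a (k-1)`: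
e1: `l p - l p' = b_k p - b_{k-1} p' + x(k-1) r`, i.e. `w_k p - w_{k-1} p' = x(k-1) r = (w_{k-1} - w_k) r`, so `w_k (p + r) = w_{k-1} (p' + r) =: K > 0`;
e2: `w_k p² - w_{k-1} p'² + (w_{k-1} - w_k) r² = M (w_{k-1} - w_k)`, i.e. `w_k (p² - r²) - w_{k-1} (p'² - r²) = M (w_{k-1} - w_k)`, i.e. `K (p - r) - K (p' - r) = K (p - p') = K² (1/w_k - 1/w_{k-1})
= M (w_{k-1} - w_k)`, so `K² = M w_k w_{k-1}`. Hence `M > 0` and for `2 ≤ k ≤ n`: `S_k² = M w_{k-1}/w_k`, `T_k² = M w_k/w_{k-1}`,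
`S_k = a(k-1) + a(n-k)`, `T_k = a(k-1) + a(n+1-k)`. `S_k = S_{n+1-k}` (`2 ≤ k ≤ n-1`), `T_k = T_{n+2-k}` (`2 ≤ k ≤ n`). With `r_k = w_k/w_{k-1}`: `r_k = r_{n+1-k}` (`2 ≤ k ≤ n-1`), `r_k = r_{n+2-k}`
(`2 ≤ k ≤ n`), so for `3 ≤ k ≤ n`: `r_k = r_{n+2-k} = r_{n+1-(n+2-k)} = r_{k-1}`. So all `r_k = q ∈ (0,1)`, `S_k = √(M/q) =: ta` for `2 ≤ k ≤ n`, and `S_1 = S_n = ta`;
`T_k = √(M q) = q ta`. For `1 ≤ k < n`: `a k - a(k-1) = T_{k+1} - S_k` (`T_{k+1} = a k + a(n-k)`, `S_k = a(k-1) + a(n-k)`) `= q ta - ta`. -/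
def KA1_stmt : Prop := ∀ (n : ℕ) (x a : ℕ → ℝ) (l nu M : ℝ), 3 ≤ n → Cr n n x a l nu M →
  ∃ q ta : ℝ, 0 < q ∧ q < 1 ∧ 0 < ta ∧ (∀ k, 2 ≤ k → k ≤ n → wk l x k = q * wk l x (k - 1)) ∧
    (∀ k, 1 ≤ k → k ≤ n → a (k - 1) + a (n - k) = ta) ∧ ∀ k, 1 ≤ k → k < n → a k = a (k - 1) - ta * (1 - q)

/-- KA2 (medium). The value and the area, type A. `u = 1/q - 1`.
Proof. `F = ∑ x a`. e1 at `i = 0`: `l a_0 = 2F + a_0` (`∑ x = 1`), `(l-1) a_0 = 2F`. e1 at `i = n-1`: `l a_{n-1} = F + x_0 (a_{n-1} + a_0)`; so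
`w_1 (a_{n-1} + a_0) = F + l a_0 = (3l-1) a_0/2` (`w_1 = l - x_0`). `a_0 + a_{n-1} = ta`, `a_{n-1} = a_0 - (n-1) ta (1-q)`, so `2 a_0 = ta E`, `E = 1 + (n-1)(1-q) = (1+nu)/(1+u)`. Hence
`w_1 = (3l-1) E/4`, and `w_n = l - 1 = w_1 q^(n-1)`: `l - 1 = (3l-1) z/4` with `z = E q^(n-1) = zz n u`, i.e. `l (4 - 3z) = 4 - z`. Then `(4-3z)(l-1) = 2z`, `(4-3z)(3l-1) = 8`,
`(4-3z) w_1 = 2E`. Area: `∑_{i<n} x_i b_{n-i}`, `b_k = l - w_k`, `x_0 = l - w_1`, `x_i = w_i - w_{i+1} = w_1 q^(i-1)(1-q)` (`1 ≤ i < n`), `b_{n-i} = l - w_1 q^(n-i-1)` (`1 ≤ i < n`), `b_n = 1`: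
`al = (l - w_1) + l w_1 (1 - q^(n-1)) - (n-1)(1-q) w_1² q^(n-2) = 2l - l² + (l-1) w_1 (1 - (E-1)/q)`, using `w_1 q^(n-1) = l-1`. `(E-1)/q = (n-1) u`,
`E (1 - (n-1) u) = 1 - YY n u`. So `(4-3z)² al = (4-z)(4-5z) + 4 z (1 - Y) = 16 - 20 z + 5 z² - 4 z Y`. -/
def KA2_stmt : Prop := ∀ (n : ℕ) (x a : ℕ → ℝ) (l nu M q ta : ℝ), 3 ≤ n → Cr n n x a l nu M → 0 < q → q < 1 → 0 < ta →
  (∀ k, 2 ≤ k → k ≤ n → wk l x k = q * wk l x (k - 1)) → (∀ k, 1 ≤ k → k ≤ n → a (k - 1) + a (n - k) = ta) →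
  (∀ k, 1 ≤ k → k < n → a k = a (k - 1) - ta * (1 - q)) →
  ∃ u : ℝ, 0 < u ∧ l * (4 - 3 * zz n u) = 4 - zz n u ∧
    arc n n x * (4 - 3 * zz n u) ^ 2 = 16 - 20 * zz n u + 5 * zz n u ^ 2 - 4 * zz n u * YY n u

/-- KB1 (medium). The structure of the critical points of type B (`T = n - 1`).
Proof. As KA1: for `1 ≤ k ≤ n-1` subtract `e1`, `e2` at `i = n - 1 - k` and `i = n - k` (`range (n - 1 - i)` is `range k`, resp. `range (k-1)`):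
with `p = a(n-1-k)`, `p' = a(n-k)`, `r = a(k-1)`: `w_k (p + r) = w_{k-1} (p' + r) = K`, `K² = M w_k w_{k-1}`. `S_k = a(k-1) + a(n-1-k)`, `T_k = a(k-1) + a(n-k)` (`1 ≤ k ≤ n-1`),
`S_k² = M w_{k-1}/w_k`, `T_k² = M w_k/w_{k-1}`. `S_k = S_{n-k}` (`1 ≤ k ≤ n-1`), `T_k = T_{n+1-k}` (`2 ≤ k ≤ n-1`). So `r_k = r_{n-k}`, `r_k = r_{n+1-k}`, and for `2 ≤ k ≤ n-1`
`r_k = r_{n+1-k} = r_{n-(n+1-k)} = r_{k-1}`. All `r_k = q`, `S_k = ta := √(M/q)`, `T_k = q ta`. For `2 ≤ k ≤ n-1`: `a(k-1) - a(k-2) = T_k - S_{k-1} = -(1-q) ta`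
(`T_k = a(k-1) + a(n-k) `, `S_{k-1} = a(k-2) + a(n-k)`); and `a(n-1) - a(n-2) = T_1 - S_1 = -(1-q) ta`. -/
def KB1_stmt : Prop := ∀ (n : ℕ) (x a : ℕ → ℝ) (l nu M : ℝ), 3 ≤ n → Cr n (n - 1) x a l nu M →
  ∃ q ta : ℝ, 0 < q ∧ q < 1 ∧ 0 < ta ∧ (∀ k, 1 ≤ k → k ≤ n - 1 → wk l x k = q * wk l x (k - 1)) ∧
    (∀ k, 1 ≤ k → k ≤ n - 1 → a (k - 1) + a (n - 1 - k) = ta) ∧ ∀ k, 1 ≤ k → k < n → a k = a (k - 1) - ta * (1 - q)

/-- KB2 (medium). The value and the area, type B. `u = 1/q - 1`.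
Proof. `F = ∑ x a`. e1 at `i = n-1`: `l a_{n-1} = F`. e1 at `i = 0`: `l a_0 = F + b_{n-1} a_0 + (F - x_{n-1} a_{n-1})`, `b_{n-1} = l - w_{n-1}`, `x_{n-1} = 1 - b_{n-1}`: `w_{n-1} a_0 = 2 l a_{n-1} - (1 - l + w_{n-1}) a_{n-1}`,
`w_{n-1} (a_0 + a_{n-1}) = (3l - 1) a_{n-1}`. `a_0 + a_{n-2} = ta`, `a_{n-1} = a_{n-2} - ta (1-q)`, so `a_0 + a_{n-1} = q ta`; `a_0 - a_{n-1} = (n-1) ta (1-q)`, so `2 a_{n-1} = ta (q - (n-1)(1-q)) = q ta (1 - (n-1) u)`.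
`w_{n-1} = l q^(n-1)`. Hence `2 l q^(n-1) = (3l-1)(1 - (n-1) u)`. Area: `∑_{i < n-1} x_i b_{n-1-i}`, `x_i = l q^i (1-q)`, `b_k = l (1 - q^k)`:
`l² [(1 - q^(n-1)) - (n-1)(1-q) q^(n-1)] = l² (1 - q^(n-1) (1 + (n-1)(1-q))) = l² (1 - zz n u)`. -/
def KB2_stmt : Prop := ∀ (n : ℕ) (x a : ℕ → ℝ) (l nu M q ta : ℝ), 3 ≤ n → Cr n (n - 1) x a l nu M → 0 < q → q < 1 → 0 < ta →
  (∀ k, 1 ≤ k → k ≤ n - 1 → wk l x k = q * wk l x (k - 1)) → (∀ k, 1 ≤ k → k ≤ n - 1 → a (k - 1) + a (n - 1 - k) = ta) →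
  (∀ k, 1 ≤ k → k < n → a k = a (k - 1) - ta * (1 - q)) →
  ∃ u : ℝ, 0 < u ∧ 2 * l = (3 * l - 1) * ((1 - (n - 1) * u) * (1 + u) ^ (n - 1)) ∧ arc n (n - 1) x = l ^ 2 * (1 - zz n u)

/-- STAR (medium-long). The key inequality.
Proof. `K = n (n-1) > 0`, `Y = K u²/(1+u)`. `sig(u) = (√(Y² + 8 Y) - Y)/4` satisfies `2 sig² = Y (1 - sig)`, `0 ≤ sig < 1`, `sig > 0` for `u > 0`.
Enough: `sig ≤ s := √(1 - z)`, because then `Y (1-s) ≤ Y (1-sig) = 2 sig² ≤ 2 s²`. I.e. `G(u) = log(1 - sig²) - log(1+nu) + n log(1+u) ≥ 0` (`1 - sig² ≥ z`). `G(0) = 0`, `G` is continuous on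
`[0,∞)`; for `u > 0`: `Y' = K u (2+u)/(1+u)²`, and from `Y = 2 sig²/(1-sig)`: `Y' = 2 sig (2-sig) sig'/(1-sig)²`, so `2 sig sig' = K u (2+u)(1-sig)²/((1+u)² (2-sig))`.
`G' = -2 sig sig'/(1-sig²) + K u/((1+u)(1+nu))`, so `G' ≥ 0` iff (1): `(2+u)(1-sig)(1+nu) ≤ (1+u)(2-sig)(1+sig)`. Twice (1) is equivalent to
(2): `(1-sig)(2+u) u (2n-1) ≤ R := 2 sig (3-sig)(1+u) - u² (1-sig)` (write `2 + 2nu = (2+u) + (2n-1)u`). `u² (2n-1)² = u² + 4 K u² = u² + 8 sig² (1+u)/(1-sig)` gives the identity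
`R² - ((1-sig)(2+u) u (2n-1))² = 4 (1+u)(1+sig)² (sig+u)(sig (1+u) - u)`. `sig ≥ u/(1+u)`: the function `2 r² - Y (1-r)` is increasing in `r ≥ 0`, zero at `sig`, and at
`r = u/(1+u)` it is `(2u² - K u²)/(1+u)² ≤ 0` (`K ≥ 2`). `R ≥ 0`: `2 sig (3-sig)(1+u) ≥ 4u`, `u² (1-sig) ≤ u²/(1+u) ≤ u`. So (2), (1), `G' ≥ 0`, `G ≥ 0`
(`monotoneOn_of_deriv_nonneg`). It is convenient to write `sig = S ∘ Y`, `S(Y) = (√(Y²+8Y) - Y)/4`. -/
def STAR_stmt : Prop := ∀ (n : ℕ) (u : ℝ), 2 ≤ n → 0 < u →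
  YY n u * (1 - √(1 - zz n u)) ≤ 2 * (1 - zz n u)

/-- FA (short-medium, uses STAR and CM). Type A against the quasi-star.
Proof. `0 < z < 1` (Bernoulli). `s = √(1-z) ∈ (0,1)`, `z = 1 - s²`, `4 - 3z > 1`. `s₀ = (1-s)²/(4-3z)`; `l = 1 + s₀ + √(4 s₀ - 3 s₀²) = cS s₀`: `(l - 1 - s₀)² = 4 s₀ - 3 s₀²` (with
`l - 1 = 2z/(4-3z)`) and `l - 1 - s₀ = (2z - (1-s)²)/(4-3z) = (1-s)(1+3s)/(4-3z) ≥ 0`. `(4-3z)² (2 s₀ - s₀²) = (1-s)² (1 + 2s + 5s²)` and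
`(4-3z)² al - that = 4 (1+s)(2 s² - (1-s) Y) ≥ 0` by STAR. So `1 - al ≤ (1 - s₀)²`, `s₀ ≤ 1 - √(1-al)` (`s₀ ≤ 1`), and `cS` is monotone on `[0,1]`. -/
def FA_stmt : Prop := ∀ (n : ℕ) (u l al : ℝ), 2 ≤ n → 0 < u → l * (4 - 3 * zz n u) = 4 - zz n u →
  al * (4 - 3 * zz n u) ^ 2 = 16 - 20 * zz n u + 5 * zz n u ^ 2 - 4 * zz n u * YY n u → al ≤ 1 → l ≤ cS (1 - √(1 - al))

/-- FB (short-medium, uses STAR and CM). Type B against the quasi-clique.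
Proof. `g = 1 - zz n u = s²`, `s ∈ (0,1)`. `P = (1 - (n-1)u)(1+u)^(n-1)`, `z' = 4 (1 - P)`; `P (1 - g) = 1 - Y` (`(1+nu)(1-(n-1)u)/(1+u) = 1 - Y`), so `z'/4 = (Y - s²)/(1 - s²)`.
`2l = (3l-1)(4-z')/4`, so `z' = 4(l-1)/(3l-1) ∈ (0, 4/3)`, `4 - 3z' > 0`, `l = (4-z')/(4-3z')`. `x = √z'`, `t₀ = (2x - z')/(4-3z') = l x/(2+x)`; `l = cC t₀` (check `(2l - 1 - 2t₀)² = 1 - 4t₀ + 12 t₀²`,
`2l - 1 - 2t₀ ≥ 0`). `al = l² s² ≥ t₀²` iff `s (2 + x) ≥ x` iff `x (1-s) ≤ 2s` iff `z' (1-s)² ≤ 4 s²` iff `(Y - s²)(1-s)² ≤ s² (1-s²)` iff `(Y - s²)(1-s) ≤ s² (1+s)` iff `Y (1-s) ≤ 2 s²`: STAR.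
`cC` is monotone on `[0,1]`. -/
def FB_stmt : Prop := ∀ (n : ℕ) (u l al : ℝ), 2 ≤ n → 0 < u → 1 < l →
  2 * l = (3 * l - 1) * ((1 - (n - 1) * u) * (1 + u) ^ (n - 1)) → al = l ^ 2 * (1 - zz n u) → al ≤ 1 → l ≤ cC (√al)

/-- CM (short-medium). `cS`, `cC`, `c` are monotone on `[0,1]`, `c ≥ 1`.
Proof. `cS' = 1 + (2 - 3s)/√(4s - 3s²) ≥ 0`: clear for `s ≤ 2/3`, and `(3s-2)² ≤ 4s - 3s²` iff `(3s-1)(s-1) ≤ 0`. `2 cC' = 2 + (12 t - 2)/√(1 - 4t + 12t²) ≥ 0`: `(1-6t)² ≤ 1 - 4t + 12 t²` for `t ≤ 1/6`.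
(Elementary alternative without derivatives: `la = cS s` is the larger root of `la² - 2(1+s) la + 1 - 2s + 4s² = 0`, ...) `c 0 = 1`. -/
def CM_stmt : Prop :=
  (∀ s s' : ℝ, 0 ≤ s → s ≤ s' → s' ≤ 1 → cS s ≤ cS s') ∧ (∀ t t' : ℝ, 0 ≤ t → t ≤ t' → t' ≤ 1 → cC t ≤ cC t') ∧
  (∀ a b : ℝ, 0 ≤ a → a ≤ b → b ≤ 1 → c a ≤ c b) ∧ (∀ a : ℝ, 0 ≤ a → a ≤ 1 → 1 ≤ c a ∧ c a ≤ 3)

/-- CC (short). Uniform continuity on `[0,1]` (continuous functions on a compact interval). -/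
def CC_stmt : Prop := ∀ eps : ℝ, 0 < eps → ∃ de : ℝ, 0 < de ∧ ∀ a b : ℝ, 0 ≤ a → a ≤ 1 → 0 ≤ b → b ≤ 1 → |a - b| < de →
  |c a - c b| < eps ∧ |cS (1 - √(1 - a)) - cS (1 - √(1 - b))| < eps ∧ |cC (√a) - cC (√b)| < eps

/-- IND (medium-long; uses TW DL TYP BAS MX K1 K2 KA1 KA2 KB1 KB2 FA FB CM). Lemma W.
Proof. `Phi W x a ≤ Phi W x |a|`, so `a ≥ 0`. Induction on `n` (all shifted `W`, all `x`, `a ≥ 0`). `n = 0` is impossible (`∑ = 1`). Let `W` be on `Fin (n+1)`. If there are twins: TW and the induction hypothesis.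
Otherwise TYP: `W = Wt (n+1) T`, `T ∈ {n+1, n}` (replace `W` by `Wt`: equal functions by `funext`, `propext`). `n + 1 ≤ 2`: BAS. Let `n + 1 ≥ 3`, suppose
`Phi W x₀ a₀ > c(al) NN x₀ a₀`, `al = ar W x₀ ∈ [0,1]`. (`NN x₀ a₀ < Phi` as `c ≥ 1`.) MX gives `x, a, l`; `l > c(al)` (if `NN x₀ a₀ = 0` then `Phi W x₀ a₀ ≤ l * 0`, contradiction; so `NN > 0` and `c(al) NN < Phi ≤ l NN`).
If some `x_i = 0`: DL, and the induction hypothesis gives `l = Phi ≤ c(ar) NN ≤ c(al)`, contradiction. So all `x_i > 0`; K1 and K2 (`de_i` are not all equal: `de 0 > de n`) give `Cr (n+1) T` (extend `x`, `a` to `ℕ` by 0 and turn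
`∑_j if i + j < T` into `∑ j ∈ range (T - i)`, note `T - i ≤ n + 1`). Type A: KA1, KA2, FA (`arc = ar W x ≤ al ≤ 1`): `l ≤ cS (1 - √(1 - ar W x)) ≤ c (ar W x) ≤ c(al)`, contradiction. Type B: KB1, KB2, FB. -/
def LW_stmt : Prop := ∀ (n : ℕ) (W : Fin n → Fin n → Prop) (x a : Fin n → ℝ), Sh W → Spl x →
  Phi W x a ≤ c (ar W x) * NN x a

/-- GL (short-medium; uses LW SRT CM). The graph form.
Proof. SRT gives `W, y'`; apply LW with `x_i = 1/d`: `Phi = (1/d²) [(∑ y')² + (1/2) ∑ ...] ≥ gf G y/d²`, `NN = (1/d) ∑ y²`, `ar = count/d² ≤ min 1 ((2|G| + d)/d²)`, `c` monotone. -/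
def GL_stmt : Prop := ∀ (d : ℕ) (G : Fam d) (y : Fin d → ℝ), 1 ≤ d → (∀ p ∈ G, p.card = 2) →
  gf G y ≤ d * c (min 1 ((2 * G.card + d) / d ^ 2)) * ∑ i, y i ^ 2

/-- UB (medium; uses DC EV LOC DSC CUT QF GL CM CC). The upper bound.
Proof. Let `t` be the top eigenvalue of `U`, `m = U.card ≤ 1 + d + d(d-1)/2 ≤ d²` (`d ≥ 2`). `t ≥ 0` (`rayleigh` for a point mass: 0 ≤ t; not needed if one argues with `t² < d` or `t < 0`...). If `t² ≤ d` then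
`t²/d ≤ 1 ≤ c`. Otherwise `t > √d > 0`. DC: `A₀`, `f₀` with `t ≤ E A₀ f₀`; EV: `l ≥ t` (`Le A₀ l`). DSC with `kap = 1/20 ∧ small` (fixed, depending on `eps`): `A, l', f', J`, `l' ≥ (1 - 10 kap) l ≥ √d/2`. LOC with `kap (9/10)^J`:
`N (hi A) f' ≤ 36 A.card/(kap (9/10)^J l')^6 ≤ 36 m/(2^J (9/10)^(6J) kap^6 l'^6) ≤ 36 m * 64/(kap^6 d^3) ≤ 2304/(kap^6 d) =: q` since `2 (9/10)^6 ≥ 1`. CUT, QF, GL (`G` = pairs of `A`, `G.card ≤ A.card ≤ m`):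
`l' (1 - 2√q) ≤ √(d c(min 1 ((2m + d)/d²)))`. So `t (1 - 10 kap)(1 - 2 √q) ≤ √(d c(...))`. Square; choose `kap` small and then `d` large; `c ≤ 3`; CC for `min 1 ((2m+d)/d²)` against `min 1 (2m/d²)` (difference `≤ 1/d`). -/
def UB_stmt : Prop := ∀ eps : ℝ, 0 < eps → ∃ d₀ : ℕ, ∀ d ≥ d₀, ∀ (U : Finset (V d)) (t : ℝ),
  U.card ≤ 1 + d + d.choose 2 → IsTop U t → t ^ 2 / d ≤ c (min 1 (2 * U.card / d ^ 2)) + eps

/-! ## Part 3: the lower bound -/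

/-- LF (medium). Sets from graphs.
Proof. `R = gf G y / ∑ y²` (`> 0` or nothing to prove: if `gf G y = 0`). `U` = the strings of weight 0, 1, the pairs in `G` and further strings of weight 2, so that there are `m` strings (possible since there are `1 + d + C(d,2)` strings of weight `≤ 2`). Test vector
`f`: `y i` at the `i`-th unit vector, `∑ y/√R` at 0, `(y i + y j)/√R` at the pairs in `G`, 0 elsewhere. `∑_x f x ∑_i f (flip i x) = 2 gf G y/√R = 2 √R ∑ y²`, `∑ f² = ∑ y² + gf G y/R = 2 ∑ y²`. `Pool.Agent.helper65.HC.rayleigh` gives `√R ≤ t`. -/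
def LF_stmt : Prop := ∀ (d m : ℕ) (G : Fam d) (y : Fin d → ℝ), (∀ p ∈ G, p.card = 2) → 0 < ∑ i, y i ^ 2 →
  1 + d + G.card ≤ m → m ≤ 1 + d + d.choose 2 →
  ∃ U : Finset (V d), U.card = m ∧ ∀ t, IsTop U t → 0 ≤ t ∧ gf G y ≤ t ^ 2 * ∑ i, y i ^ 2

/-- LS (medium). The quasi-star: `G` = pairs meeting the first `k` coordinates.
Proof. `2 |G| = 2kd - k² - k`. `y = α` on the first `k` coordinates, `β` on the others; `F = kα + (d-k)β`. `gf G y = F² + C(k,2) (2α)² + k (d-k)(α+β)²`. With `s = k/d` and `la = cS s` let `(α, β)` be `(2(1-s), la - 1 - 2s)` if this is not `(0, 0)`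
(if `s = 1`, `α = 1`, `β = 0`... `d - k = 0`; if `k = 0` take `β = 1`): an eigenvector of `[[1+2s, 2(1-s)], [2s, 1]]` for `la`. Then `F² + 2k²α² + k(d-k)(α+β)² = d² [s α ((1+2s)α + 2(1-s)β) + (1-s) β (2sα + β)] = d² la (sα² + (1-s)β²) = d la ∑ y²`
and `gf G y` is that minus `2 k α² ≤ 2 ∑ y²` (`C(k,2) 4 α² = 2k²α² - 2kα²`). -/
def LS_stmt : Prop := ∀ d k : ℕ, 1 ≤ d → k ≤ d → ∃ (G : Fam d) (y : Fin d → ℝ), (∀ p ∈ G, p.card = 2) ∧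
  2 * G.card + k ^ 2 + k = 2 * k * d ∧ 0 < ∑ i, y i ^ 2 ∧ (d * cS (k / d) - 2) * ∑ i, y i ^ 2 ≤ gf G y

/-- LC (medium). The quasi-clique: `G` = pairs inside the first `k` coordinates.
Proof. As LS with `gf G y = F² + C(k,2)(2α)²`, `la = cC (k/d)`, the matrix `[[3s, 1-s],[s, 1-s]]` (`s = k/d`): `F² + 2k²α² = d² [sα(3sα + (1-s)β) + (1-s)β(sα + (1-s)β)] = d la ∑ y²` for an eigenvector,
e.g. `(α, β) = (la - (1-s), s)`, or `(0, 1)` if `k = 0`, (`(1, anything)` if `k = d`). -/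
def LC_stmt : Prop := ∀ d k : ℕ, 1 ≤ d → k ≤ d → ∃ (G : Fam d) (y : Fin d → ℝ), (∀ p ∈ G, p.card = 2) ∧
  2 * G.card + k = k ^ 2 ∧ 0 < ∑ i, y i ^ 2 ∧ (d * cC (k / d) - 2) * ∑ i, y i ^ 2 ≤ gf G y

/-- LBD (medium; uses LF LS LC CM CC). The lower bound.
Proof. `e = m - 1 - d ≥ 0`, `al = min 1 (2m/d²)`. `k` maximal with `2kd - k² - k ≤ 2e`, `k ≤ d - 1` or so; then `2(k+1)d - (k+1)² - (k+1) > 2e` or `k = d-1` or `k = d` (all pairs: `k = d - 1` already gives all `d(d-1)` = twice the pairs);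
with `s = k/d`: `|2s - s² - al| ≤ C/d`, so `cS s = cS (1 - √(1 - (2s - s²))) ≥ cS (1 - √(1-al)) - eps/2` by CC. LF with LS: `t²/d ≥ cS s - 2/d`. The same with LC: `k` maximal with `k² - k ≤ 2e`, `|(k/d)² - al| ≤ C/d`.
One of the two sets gives the maximum `c al`. -/
def LBD_stmt : Prop := ∀ eps : ℝ, 0 < eps → ∃ d₀ : ℕ, ∀ d ≥ d₀, ∀ m : ℕ, d + 1 ≤ m → m ≤ 1 + d + d.choose 2 →
  ∃ U : Finset (V d), U.card = m ∧ ∀ t, IsTop U t → 0 ≤ t ∧ c (min 1 (2 * m / d ^ 2)) - eps ≤ t ^ 2 / d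

/-- FIN (short-medium; uses UB LBD). Proof. `Pool.Agent.helper65.HC.lam_isGreatest` (`1 ≤ m ≤ 2^d`), `Pool.Agent.helper65.HC.isTop_exists`. `lam d m = t` for an optimal `U`; upper bound UB; lower bound: the set of LBD has a top eigenvalue
`t' ≤ lam d m`, `t' ≥ 0`. -/
def FIN_stmt : Prop := ∀ eps : ℝ, 0 < eps → ∃ d₀ : ℕ, ∀ d ≥ d₀, ∀ m : ℕ, d + 1 ≤ m → m ≤ 1 + d + d.choose 2 →
  |lam d m ^ 2 / d - c (min 1 (2 * m / d ^ 2))| < eps ∧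
    IsGreatest {t | ∃ U : Finset (V d), U.card = m ∧ IsTop U t} (lam d m)

end

end Pool.Agent.helper9.HQ
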